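import Pool.Agent.R289.MB.Defs

/-!
Piece AL: algebra of the limit operators.
-/

open Set Filter Topology Cardinal

noncomputable section

namespace MB289

universe u v

namespace PieceAL

variable {𝕜 : Type} [RCLike 𝕜] {X : Type u} [NormedAddCommGroup X] [NormedSpace 𝕜 X]
  {E : Type u} {P : Finset E → X →L[𝕜] X} {r : ℝ} {S : Set E → X →L[𝕜] X}

theorem eq_of_forall {a b : X} (h : ∀ ε : ℝ, 0 < ε → ‖a - b‖ ≤ ε) : a = b := by
  have : ‖a - b‖ ≤ 0 := le_of_forall_pos_le_add fun ε hε => by rw [zero_add]; exact h ε hε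
  exact sub_eq_zero.1 (norm_le_zero_iff.1 this)

theorem lim_unique (hL : Lim P S) {C : Set E} {x y : X}
    (h : ∀ ε : ℝ, 0 < ε → ∃ A : Finset E, (A : Set E) ⊆ C ∧
      ∀ B : Finset E, A ⊆ B → (B : Set E) ⊆ C → ‖P B x - y‖ < ε) : S C x = y := by
  classical
  apply eq_of_forall
  intro ε hε
  obtain ⟨A, hA, hA2⟩ := hL C x (ε / 2) (by positivity)
  obtain ⟨A', hA', hA2'⟩ := h (ε / 2) (by positivity)
  have hU : ((A ∪ A' : Finset E) : Set E) ⊆ C := by
    rw [Finset.coe_union]; exact union_subset hA hA'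
  have h1 := hA2 (A ∪ A') Finset.subset_union_left hU
  have h2 := hA2' (A ∪ A') Finset.subset_union_right hU
  calc ‖S C x - y‖ = ‖(P (A ∪ A') x - y) - (P (A ∪ A') x - S C x)‖ := by congr 1; abel
    _ ≤ ‖P (A ∪ A') x - y‖ + ‖P (A ∪ A') x - S C x‖ := norm_sub_le _ _
    _ ≤ ε := by linarith

theorem P_S (hP : FinSk P r) (hL : Lim P S) {A : Finset E} {C' : Set E} (hA : (A : Set E) ⊆ C')
    (x : X) : P A (S C' x) = P A x := by
  classical
  apply eq_of_forall
  intro ε hε
  have hpos : 0 < ‖P A‖ + 1 := by positivity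
  obtain ⟨B, hB, hB2⟩ := hL C' x (ε / (‖P A‖ + 1)) (by positivity)
  have hU : ((A ∪ B : Finset E) : Set E) ⊆ C' := by
    rw [Finset.coe_union]; exact union_subset hA hB
  have h1 := hB2 (A ∪ B) Finset.subset_union_right hU
  have h2 := (hP.sys.comp A (A ∪ B) Finset.subset_union_left x).1
  calc ‖P A (S C' x) - P A x‖ = ‖P A (P (A ∪ B) x - S C' x)‖ := by
        rw [map_sub, h2, norm_sub_rev]
    _ ≤ ‖P A‖ * ‖P (A ∪ B) x - S C' x‖ := (P A).le_opNorm _
    _ ≤ (‖P A‖ + 1) * (ε / (‖P A‖ + 1)) := by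
        apply mul_le_mul _ h1.le (norm_nonneg _) hpos.le
        linarith
    _ = ε := by field_simp

theorem S_P (hP : FinSk P r) (hL : Lim P S) {A : Finset E} {C' : Set E} (hA : (A : Set E) ⊆ C')
    (x : X) : S C' (P A x) = P A x := by
  apply lim_unique hL
  intro ε hε
  refine ⟨A, hA, fun B hB _ => ?_⟩
  rw [(hP.sys.comp A B hB x).2, sub_self, norm_zero]
  exact hε

end PieceAL

open PieceAL

/-- Piece AL. -/
theorem t_AL : S_AL.{u} := by
  classical
  intro 𝕜 _ X _ _ _ E P r S hP hL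
  refine ⟨?_, ?_, ?_, ?_, ?_, ?_⟩
  · intro C x
    refine le_of_forall_pos_le_add fun ε hε => ?_
    obtain ⟨A, hA, hA2⟩ := hL C x ε hε
    have h1 := hA2 A (Finset.Subset.refl _) hA
    have h2 := hP.sys.bound A x
    calc ‖S C x‖ = ‖P A x - (P A x - S C x)‖ := by congr 1; abel
      _ ≤ ‖P A x‖ + ‖P A x - S C x‖ := norm_sub_le _ _
      _ ≤ r * ‖x‖ + ε := by linarith
  · intro C C' hCC x
    constructor
    · apply lim_unique hL
      intro ε hε
      obtain ⟨A, hA, hA2⟩ := hL C x ε hε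
      refine ⟨A, hA, fun B hAB hB => ?_⟩
      rw [P_S hP hL (hB.trans hCC)]
      exact hA2 B hAB hB
    · apply eq_of_forall
      intro ε hε
      have hpos : 0 < ‖S C'‖ + 1 := by positivity
      obtain ⟨A, hA, hA2⟩ := hL C x (ε / (‖S C'‖ + 1)) (by positivity)
      have h1 := hA2 A (Finset.Subset.refl _) hA
      have h2 := S_P hP hL (hA.trans hCC) x
      calc ‖S C' (S C x) - S C x‖ = ‖(P A x - S C x) - S C' (P A x - S C x)‖ := by
            rw [map_sub, h2]; congr 1; abel
        _ ≤ ‖P A x - S C x‖ + ‖S C' (P A x - S C x)‖ := norm_sub_le _ _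
        _ ≤ ‖P A x - S C x‖ + ‖S C'‖ * ‖P A x - S C x‖ := by
            gcongr
            exact (S C').le_opNorm _
        _ = (‖S C'‖ + 1) * ‖P A x - S C x‖ := by ring
        _ ≤ (‖S C'‖ + 1) * (ε / (‖S C'‖ + 1)) := mul_le_mul_of_nonneg_left h1.le hpos.le
        _ = ε := by field_simp
  · intro C x ε hε
    obtain ⟨A, hA, hA2⟩ := hL C x (ε / 2) (by positivity)
    refine ⟨A, hA, fun C' hAC' hC' => ?_⟩
    obtain ⟨A', hA', hA2'⟩ := hL C' x (ε / 2) (by positivity)
    have hU : ((A ∪ A' : Finset E) : Set E) ⊆ C' := by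
      rw [Finset.coe_union]; exact union_subset hAC' hA'
    have h1 := hA2 (A ∪ A') Finset.subset_union_left (hU.trans hC')
    have h2 := hA2' (A ∪ A') Finset.subset_union_right hU
    calc ‖S C' x - S C x‖ = ‖(P (A ∪ A') x - S C x) - (P (A ∪ A') x - S C' x)‖ := by
          congr 1; abel
      _ ≤ ‖P (A ∪ A') x - S C x‖ + ‖P (A ∪ A') x - S C' x‖ := norm_sub_le _ _
      _ < ε := by linarith
  · intro C hC
    have hcount : {A : Finset E | (A : Set E) ⊆ C}.Countable := by
      have h := (Set.countable_setOf_finite_subset hC).preimage_of_injOn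
        (f := fun A : Finset E => (A : Set E)) Finset.coe_injective.injOn
      refine h.mono fun A hA => ?_
      exact ⟨A.finite_toSet, hA⟩
    have : Countable {A : Finset E | (A : Set E) ⊆ C} := hcount.to_subtype
    have hsep : TopologicalSpace.IsSeparable
        (⋃ A : {A : Finset E | (A : Set E) ⊆ C}, range (P A.1)) :=
      TopologicalSpace.IsSeparable.iUnion fun A => hP.sys.sep A.1
    refine hsep.closure.mono ?_
    rintro _ ⟨x, rfl⟩
    rw [Metric.mem_closure_iff]
    intro ε hε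
    obtain ⟨A, hA, hA2⟩ := hL C x ε hε
    refine ⟨P A x, mem_iUnion.2 ⟨⟨A, hA⟩, x, rfl⟩, ?_⟩
    rw [dist_comm, dist_eq_norm]
    exact hA2 A (Finset.Subset.refl _) hA
  · ext x
    apply lim_unique hL
    intro ε hε
    refine ⟨∅, by simp, fun B _ hB => ?_⟩
    have : B = ∅ := by
      rw [← Finset.coe_eq_empty]
      exact subset_empty_iff.1 hB
    rw [this, hP.empty]
    simpa using hε
  · ext x
    have hcl : IsClosed {x : X | S univ x = x} := isClosed_eq (S univ).continuous continuous_id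
    have hsub : (⋃ A, range (P A)) ⊆ {x : X | S univ x = x} := by
      intro y hy
      obtain ⟨A, hA⟩ := mem_iUnion.1 hy
      obtain ⟨z, rfl⟩ := hA
      exact S_P hP hL (subset_univ _) z
    exact closure_minimal hsub hcl (hP.dense x)

end MB289
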