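import Pool.Agent.R289.MB.Defs

/-!
# Project MB, piece CL (helper962): closing off a countable set
-/

open Set Filter Topology Cardinal

noncomputable section

namespace MB289

universe u v

namespace CLaux

variable {𝕜 : Type} [RCLike 𝕜] {X : Type u} [NormedAddCommGroup X] [NormedSpace 𝕜 X]

lemma step {E : Type u} {r : ℝ} {S : Set E → X →L[𝕜] X} (h : Alg S r) (C K : Set E)
    (hK : K.Countable) :
    ∃ L : Set E, L ⊆ C ∧ L.Countable ∧ ∀ y ∈ range (S K), S C y = S L y := by
  obtain ⟨c, hc, hcl⟩ := h.sep K hK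
  have hcont : ∀ (z : X) (m : ℕ), ∃ A : Finset E, (A : Set E) ⊆ C ∧
      ∀ C' : Set E, (A : Set E) ⊆ C' → C' ⊆ C → ‖S C' z - S C z‖ < 1 / ((m : ℝ) + 1) :=
    fun z m => h.cont C z _ Nat.one_div_pos_of_nat
  choose A hA hA' using hcont
  refine ⟨⋃ z ∈ c, ⋃ m : ℕ, (A z m : Set E), ?_, ?_, ?_⟩
  · exact iUnion₂_subset fun z _ => iUnion_subset fun m => hA z m
  · exact hc.biUnion fun z _ => countable_iUnion fun m => (A z m).countable_toSet
  · set L : Set E := ⋃ z ∈ c, ⋃ m : ℕ, (A z m : Set E) with hL
    have hLC : L ⊆ C := iUnion₂_subset fun z _ => iUnion_subset fun m => hA z m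
    have hz : ∀ z ∈ c, S C z = S L z := by
      intro z hz
      have h1 : ∀ m : ℕ, ‖S L z - S C z‖ < 1 / ((m : ℝ) + 1) := fun m =>
        hA' z m L (fun e he => mem_iUnion₂.2 ⟨z, hz, mem_iUnion.2 ⟨m, he⟩⟩) hLC
      have h2 : ‖S L z - S C z‖ ≤ 0 := by
        apply le_of_forall_pos_lt_add
        intro ε hε
        obtain ⟨m, hm⟩ := exists_nat_one_div_lt hε
        rw [zero_add]
        exact (h1 m).trans hm
      have h3 : S L z - S C z = 0 := norm_le_zero_iff.1 h2
      exact (sub_eq_zero.1 h3).symm
    intro y hy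
    have hclosed : IsClosed {y : X | S C y = S L y} :=
      isClosed_eq (S C).continuous (S L).continuous
    exact closure_minimal (s := c) (t := {y : X | S C y = S L y}) (fun z hz' => hz z hz')
      hclosed (hcl hy)

end CLaux

theorem t_CL : S_CL.{u} := by
  intro 𝕜 _ X _ _ _ E r S h C K hK
  classical
  choose! f hf1 hf2 hf3 using fun (K : Set E) (hK : K.Countable) => CLaux.step h C K hK
  let g : ℕ → Set E := fun n => Nat.rec K (fun _ A => A ∪ f A) n
  have g0 : g 0 = K := rfl
  have gs : ∀ n, g (n + 1) = g n ∪ f (g n) := fun n => rfl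
  have hgc : ∀ n, (g n).Countable := by
    intro n
    induction n with
    | zero => exact hK
    | succ n ih => rw [gs]; exact ih.union (hf2 _ ih)
  have hgm : Monotone g := monotone_nat_of_le_succ fun n => by
    rw [gs]; exact subset_union_left
  have hgC : ∀ n, g n ⊆ K ∪ C := by
    intro n
    induction n with
    | zero => exact subset_union_left
    | succ n ih =>
      rw [gs]
      exact union_subset ih ((hf1 _ (hgc n)).trans subset_union_right)
  set K' : Set E := ⋃ n, g n with hK'
  refine ⟨K', ?_, countable_iUnion hgc, iUnion_subset hgC, ?_⟩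
  · rw [← g0]; exact subset_iUnion g 0
  intro x
  set M : Set E := C ∩ K' with hM
  have hMC : M ⊆ C := inter_subset_left
  have hMK : M ⊆ K' := inter_subset_right
  -- on the range of `S (g n)` the operators `S C` and `S M` agree
  have key : ∀ n x, S C (S (g n) x) = S M (S (g n) x) := by
    intro n x
    have hLM : f (g n) ⊆ M := by
      apply subset_inter (hf1 _ (hgc n))
      refine subset_trans ?_ (subset_iUnion g (n + 1))
      rw [gs]; exact subset_union_right
    have e1 : S C (S (g n) x) = S (f (g n)) (S (g n) x) := hf3 _ (hgc n) _ ⟨x, rfl⟩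
    have e2 : S M (S (g n) x) = S M (S C (S (g n) x)) := ((h.comp M C hMC _).1).symm
    rw [e2, e1, (h.comp _ M hLM _).2]
  have hclosed : IsClosed {y : X | S C y = S M y} :=
    isClosed_eq (S C).continuous (S M).continuous
  have hmem : S K' x ∈ closure {y : X | S C y = S M y} := by
    rw [Metric.mem_closure_iff]
    intro ε hε
    obtain ⟨A, hA, hA'⟩ := h.cont K' x ε hε
    have : ∃ n, (A : Set E) ⊆ g n := by
      have h1 : ∀ e ∈ A, ∃ n, e ∈ g n := fun e he => mem_iUnion.1 (hA he)
      choose! N hN using h1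
      refine ⟨A.sup N, fun e he => hgm (Finset.le_sup (f := N) he) (hN e he)⟩
    obtain ⟨n, hn⟩ := this
    refine ⟨S (g n) x, key n x, ?_⟩
    rw [dist_comm, dist_eq_norm]
    exact hA' (g n) hn (subset_iUnion g n)
  rw [hclosed.closure_eq] at hmem
  have h1 : S C (S K' x) = S M (S K' x) := hmem
  rw [h1, (h.comp M K' hMK x).1]

end MB289
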