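import Pool.Agent.R289.MB.Defs

/-!
# Project MB, piece CO: refinement of a decomposition
-/

open Set Filter Topology Cardinal

noncomputable section

namespace MB289

universe u v

section

variable {𝕜 : Type} [RCLike 𝕜] {X : Type u} [NormedAddCommGroup X] [NormedSpace 𝕜 X]

/-- the operator `D`, if idempotent, with values in its fixed vectors -/
def coP (D : X →L[𝕜] X) (h : ∀ x, D (D x) = D x) : X →L[𝕜] Fix D :=
  D.codRestrict (Fix D) (fun x => h x)

theorem coP_coe (D : X →L[𝕜] X) (h : ∀ x, D (D x) = D x) (x : X) :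
    ((coP D h x : Fix D) : X) = D x := rfl

theorem fix_eq (D : X →L[𝕜] X) (y : Fix D) : D (y : X) = y := y.2

theorem coP_fix (D : X →L[𝕜] X) (h : ∀ x, D (D x) = D x) (y : Fix D) : coP D h (y : X) = y := by
  apply Subtype.ext
  rw [coP_coe]
  exact fix_eq D y

theorem coP_zero (D : X →L[𝕜] X) (h : ∀ x, D (D x) = D x) (y : X) (hy : D y = 0) :
    coP D h y = 0 := by
  apply Subtype.ext
  rw [coP_coe, hy]
  rfl

/-- the operator `A` on the fixed vectors of `D`, extended by `D` to the whole space -/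
def coE (D : X →L[𝕜] X) (h : ∀ x, D (D x) = D x) (A : Fix D →L[𝕜] Fix D) : X →L[𝕜] X :=
  (Fix D).subtypeL.comp (A.comp (coP D h))

theorem coE_apply (D : X →L[𝕜] X) (h : ∀ x, D (D x) = D x) (A : Fix D →L[𝕜] Fix D) (x : X) :
    coE D h A x = ((A (coP D h x) : Fix D) : X) := rfl

end

theorem t_CO : S_CO.{u} := by
  intro 𝕜 _ X _ _ J _ D Q hD I _ D' Q' hD' hsep
  have hid : ∀ j x, D j (D j x) = D j x := hD.idem
  -- action of the big operators on fixed vectors
  have hDf : ∀ (k j : J), k ≠ j → ∀ y : Fix (D j), D k (y : X) = 0 := by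
    intro k j hkj y
    rw [← fix_eq (D j) y]
    exact hD.orth k j hkj _
  have hQl : ∀ (k j : J), j < k → ∀ y : Fix (D j), Q k (y : X) = y := by
    intro k j hkj y
    have := hD.lower k j hkj (y : X)
    rwa [fix_eq] at this
  have hQu : ∀ (k j : J), k ≤ j → ∀ y : Fix (D j), Q k (y : X) = 0 := by
    intro k j hkj y
    have := hD.upper k j hkj (y : X)
    rwa [fix_eq] at this
  refine ⟨fun k => coE (D k.1) (hid k.1) (D' k.1 k.2),
    fun k => Q k.1 + coE (D k.1) (hid k.1) (Q' k.1 k.2), ⟨?_, ?_, ?_, ?_, ?_⟩, ?_⟩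
  · rintro ⟨j, i⟩ x
    simp only [coE_apply, coP_fix]
    rw [(hD' j).idem]
  · rintro ⟨j, i⟩ ⟨j', i'⟩ hne x
    by_cases hj : j = j'
    · subst hj
      have hi : i ≠ i' := by
        rintro rfl
        exact hne rfl
      simp only [coE_apply, coP_fix]
      rw [(hD' j).orth i i' hi]
      rfl
    · simp only [coE_apply]
      rw [coP_zero (D j) (hid j) _ (hDf j j' hj _), map_zero]
      rfl
  · rintro ⟨j, i⟩ ⟨j', i'⟩ hlt x
    have hlt' := (Sigma.Lex.lt_def (α := I) (a := ⟨j', i'⟩) (b := ⟨j, i⟩)).mp hlt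
    rcases hlt' with hlt | ⟨h, hlt⟩
    · simp only [ContinuousLinearMap.add_apply, coE_apply]
      rw [coP_zero (D j) (hid j) _ (hDf j j' (ne_of_gt hlt) _), map_zero,
        hQl j j' hlt]
      simp
    · have h' : j' = j := h
      subst h'
      simp only [ContinuousLinearMap.add_apply, coE_apply, coP_fix]
      rw [hQu j' j' le_rfl, (hD' j').lower i i' hlt, zero_add]
  · rintro ⟨j, i⟩ ⟨j', i'⟩ hle x
    have hle' := (Sigma.Lex.le_def (α := I) (a := ⟨j, i⟩) (b := ⟨j', i'⟩)).mp hle
    rcases hle' with hlt | ⟨h, hle⟩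
    · simp only [ContinuousLinearMap.add_apply, coE_apply]
      rw [coP_zero (D j) (hid j) _ (hDf j j' (ne_of_lt hlt) _), map_zero,
        hQu j j' (le_of_lt hlt)]
      simp
    · have h' : j = j' := h
      subst h'
      simp only [ContinuousLinearMap.add_apply, coE_apply, coP_fix]
      rw [hQu j j le_rfl, (hD' j).upper i i' hle, zero_add]
      rfl
  · intro x
    set M : Submodule 𝕜 X := Submodule.span 𝕜
      {y | ∃ k : Σₗ j, I j, y = coE (D k.1) (hid k.1) (D' k.1 k.2) x} with hM
    have hcl : (M.topologicalClosure : Set X) = closure (M : Set X) := rfl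
    have key : ∀ j, D j x ∈ M.topologicalClosure := by
      intro j
      have h1 := (hD' j).span (coP (D j) (hid j) x)
      have h2 : ((coP (D j) (hid j) x : Fix (D j)) : X) ∈
          closure ((Fix (D j)).subtypeL ''
            (Submodule.span 𝕜 {y | ∃ i, y = D' j i (coP (D j) (hid j) x)} : Set (Fix (D j)))) :=
        image_closure_subset_closure_image (Fix (D j)).subtypeL.continuous
          (mem_image_of_mem _ h1)
      rw [coP_coe] at h2
      change D j x ∈ closure (M : Set X)
      refine closure_mono ?_ h2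
      rintro _ ⟨y, hy, rfl⟩
      have hmap : (Submodule.span 𝕜 {y | ∃ i, y = D' j i (coP (D j) (hid j) x)}).map
          (Fix (D j)).subtype ≤ M := by
        rw [Submodule.map_span_le]
        rintro _ ⟨i, rfl⟩
        exact Submodule.subset_span ⟨(⟨j, i⟩ : Sigma I), rfl⟩
      exact hmap (Submodule.mem_map_of_mem hy)
    have h3 : (Submodule.span 𝕜 {y | ∃ j, y = D j x}) ≤ M.topologicalClosure := by
      rw [Submodule.span_le]
      rintro _ ⟨j, rfl⟩
      exact key j
    have h4 : closure (Submodule.span 𝕜 {y | ∃ j, y = D j x} : Set X) ⊆ M.topologicalClosure :=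
      closure_minimal h3 M.isClosed_topologicalClosure
    exact h4 (hD.span x)
  · rintro ⟨j, i⟩
    have h1 := (hsep j i).image (Fix (D j)).subtypeL.continuous
    refine h1.mono ?_
    rintro _ ⟨x, rfl⟩
    exact ⟨D' j i (coP (D j) (hid j) x), ⟨_, rfl⟩, rfl⟩

end MB289
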