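import Pool.Agent.R289.MB.Defs

/-!
# MB-DE: density of the difference
-/

open Set Filter Topology Cardinal

namespace MB289

universe u

theorem t_DE : S_DE.{u} := by
  intro 𝕜 _ X _ _ _ E r S hS C C' μ hCC hμ hC'
  have h1 := hS.comp C' C' subset_rfl
  have h2 := hS.comp C C' hCC
  have h3 := hS.comp C C subset_rfl
  have hidem : ∀ x, (S C' - S C) ((S C' - S C) x) = (S C' - S C) x := by
    intro x
    simp only [ContinuousLinearMap.sub_apply, map_sub]
    rw [(h1 x).1, (h2 x).2, (h2 x).1, (h3 x).1]
    abel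
  have hfix : ∀ y, (S C' - S C) y = y → S C' y = y := by
    intro y hy
    have h : S C' ((S C' - S C) y) = (S C' - S C) y := by
      simp only [ContinuousLinearMap.sub_apply, map_sub]
      rw [(h1 y).1, (h2 y).2]
    rwa [hy] at h
  let A : List C' → Set E := fun l => {e | e ∈ l.map Subtype.val}
  have hAc : ∀ l, (A l).Countable := fun l => (List.finite_toSet _).countable
  have hsep : ∀ l, ∃ c : Set X, c.Countable ∧ range (S (A l)) ⊆ closure c := fun l =>
    hS.sep (A l) (hAc l)
  choose c hc hcs using hsep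
  have hZ : #(⋃ l, c l : Set X) ≤ μ := by
    have e1 : #(List C') ≤ μ := (mk_list_le_max C').trans (max_le hμ hC')
    have e2 : (⨆ l, #(c l)) ≤ μ := (ciSup_le' fun l => (hc l).le_aleph0).trans hμ
    calc #(⋃ l, c l : Set X) ≤ #(List C') * ⨆ l, #(c l) := mk_iUnion_le c
      _ ≤ μ * μ := mul_le_mul' e1 e2
      _ = μ := mul_eq_self hμ
  let F : X → Fix (S C' - S C) := fun x => ⟨(S C' - S C) x, hidem x⟩
  have hF : Continuous F := (S C' - S C).continuous.subtype_mk _
  refine ⟨F '' (⋃ l, c l), ?_, mk_image_le.trans hZ⟩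
  intro y
  have hy : (S C' - S C) (y : X) = y := y.2
  have hyF : F (y : X) = y := Subtype.ext hy
  have hcl : (y : X) ∈ closure (⋃ l, c l) := by
    rw [Metric.mem_closure_iff]
    intro ε hε
    obtain ⟨B, hB, hBε⟩ := hS.cont C' y (ε / 2) (half_pos hε)
    have hBε' := hBε (B : Set E) subset_rfl hB
    rw [hfix _ hy] at hBε'
    let l : List C' := B.toList.attach.map fun e => ⟨e.1, hB (Finset.mem_coe.2
      (Finset.mem_toList.1 e.2))⟩
    have hl : A l = (B : Set E) := by
      ext e
      simp [A, l]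
      exact fun h => hB (Finset.mem_coe.2 h)
    have hmem : S (B : Set E) (y : X) ∈ closure (c l) := by
      rw [← hl]
      exact hcs l (mem_range_self _)
    obtain ⟨z, hz, hzd⟩ := Metric.mem_closure_iff.1 hmem (ε / 2) (half_pos hε)
    refine ⟨z, mem_iUnion.2 ⟨l, hz⟩, ?_⟩
    calc dist (y : X) z ≤ dist (y : X) (S (B : Set E) (y : X)) + dist (S (B : Set E) (y : X)) z :=
          dist_triangle _ _ _
      _ < ε / 2 + ε / 2 := by
          refine add_lt_add ?_ hzd
          rw [dist_comm, dist_eq_norm]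
          exact hBε'
      _ = ε := by ring
  rw [← hyF]
  exact map_mem_closure hF hcl fun x hx => mem_image_of_mem F hx

end MB289
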