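import Mathlib

/-!
# Project MB (helper289): invariant Markushevich bases for spaces with a projectional skeleton
(MP_14477d_an)

Statements only; `NOTES.md` in this folder has the complete proofs.
-/

open Set Filter Topology Cardinal

noncomputable section

namespace MB289

universe u v

section Defs

variable {𝕜 : Type} [RCLike 𝕜] {X : Type u} [NormedAddCommGroup X] [NormedSpace 𝕜 X]

/-- projectional skeleton: a family of bounded projections indexed by a directed partially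
ordered set in which every increasing sequence has a supremum -/
structure IsSkeleton {Γ : Type v} [PartialOrder Γ] (P : Γ → X →L[𝕜] X) : Prop where
  directed : ∀ s t : Γ, ∃ r, s ≤ r ∧ t ≤ r
  complete : ∀ σ : ℕ → Γ, Monotone σ → ∃ s, IsLUB (range σ) s
  proj : ∀ s x, P s (P s x) = P s x
  sep : ∀ s, TopologicalSpace.IsSeparable (range (P s))
  comp : ∀ s t, s ≤ t → ∀ x, P s (P t x) = P s x ∧ P t (P s x) = P s x
  cont : ∀ (σ : ℕ → Γ) (s : Γ), Monotone σ → IsLUB (range σ) s →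
    range (P s) = closure (⋃ n, range (P (σ n)))
  cover : ∀ x, ∃ s, x ∈ range (P s)

/-- density character: the least cardinality of a dense subset -/
def dens (Y : Type u) [TopologicalSpace Y] : Cardinal.{u} :=
  sInf {c | ∃ D : Set Y, Dense D ∧ #D = c}

/-- separable projectional resolution of the identity, indexed by the ordinals `≤ κ` -/
structure IsSPRI (κ : Cardinal.{u}) (Q : Ordinal.{u} → X →L[𝕜] X) : Prop where
  proj : ∀ α ≤ κ.ord, ∀ x, Q α (Q α x) = Q α x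
  zero : Q 0 = 0
  top : Q κ.ord = ContinuousLinearMap.id 𝕜 X
  sep : ∀ α < κ.ord, TopologicalSpace.IsSeparable (range (Q (Order.succ α) - Q α))
  comp : ∀ α < κ.ord, ∀ β ≤ α, ∀ x, Q α (Q β x) = Q β x ∧ Q β (Q α x) = Q β x
  span : ∀ x, x ∈ closure
    (Submodule.span 𝕜 {y | ∃ β < κ.ord, y = (Q (Order.succ β) - Q β) x} : Set X)

/-- Markushevich basis -/
structure IsMBasis {I : Type u} (e : I → X) (f : I → X →L[𝕜] 𝕜) : Prop where
  one : ∀ i, f i (e i) = 1
  zero : ∀ i j, i ≠ j → f i (e j) = 0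
  dense : Dense (Submodule.span 𝕜 (range e) : Set X)
  sep : ∀ x, (∀ i, f i x = 0) → x = 0

/-- bounded directed system of projections onto separable subspaces which converges along
increasing sequences -/
structure Sys {T : Type v} [Preorder T] (P : T → X →L[𝕜] X) (r : ℝ) : Prop where
  dir : ∀ s t : T, ∃ w, s ≤ w ∧ t ≤ w
  bound : ∀ s x, ‖P s x‖ ≤ r * ‖x‖
  comp : ∀ s t, s ≤ t → ∀ x, P s (P t x) = P s x ∧ P t (P s x) = P s x
  sep : ∀ s, TopologicalSpace.IsSeparable (range (P s))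
  conv : ∀ σ : ℕ → T, Monotone σ → ∀ x, CauchySeq (fun n => P (σ n) x)

/-- the same indexed by the finite subsets of `E` -/
structure FinSk {E : Type u} (P : Finset E → X →L[𝕜] X) (r : ℝ) : Prop where
  sys : Sys P r
  empty : P ∅ = 0
  dense : ∀ x, x ∈ closure (⋃ A, range (P A))

/-- `S C` is the limit of `P A` over the finite subsets `A` of `C` -/
def Lim {E : Type u} (P : Finset E → X →L[𝕜] X) (S : Set E → X →L[𝕜] X) : Prop :=
  ∀ (C : Set E) (x : X) (ε : ℝ), 0 < ε → ∃ A : Finset E, (A : Set E) ⊆ C ∧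
    ∀ B : Finset E, A ⊆ B → (B : Set E) ⊆ C → ‖P B x - S C x‖ < ε

/-- the algebra of the limit operators -/
structure Alg {E : Type u} (S : Set E → X →L[𝕜] X) (r : ℝ) : Prop where
  bound : ∀ C x, ‖S C x‖ ≤ r * ‖x‖
  comp : ∀ C C', C ⊆ C' → ∀ x, S C (S C' x) = S C x ∧ S C' (S C x) = S C x
  cont : ∀ (C : Set E) (x : X) (ε : ℝ), 0 < ε → ∃ A : Finset E, (A : Set E) ⊆ C ∧
    ∀ C' : Set E, (A : Set E) ⊆ C' → C' ⊆ C → ‖S C' x - S C x‖ < ε
  sep : ∀ C : Set E, C.Countable → TopologicalSpace.IsSeparable (range (S C))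
  empty : S ∅ = 0
  top : S univ = ContinuousLinearMap.id 𝕜 X

/-- the fixed vectors of an operator -/
def Fix (D : X →L[𝕜] X) : Submodule 𝕜 X where
  carrier := {x | D x = x}
  add_mem' := by
    intro a b ha hb
    simp only [mem_ofPred_eq] at ha hb ⊢
    rw [map_add, ha, hb]
  zero_mem' := by simp
  smul_mem' := by
    intro c a ha
    simp only [mem_ofPred_eq] at ha ⊢
    rw [map_smul, ha]

/-- decomposition along a linear order: `D i` is the difference at `i`, `Q i` the part below -/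
structure Dec {J : Type u} [LinearOrder J] (D Q : J → X →L[𝕜] X) : Prop where
  idem : ∀ i x, D i (D i x) = D i x
  orth : ∀ i j, i ≠ j → ∀ x, D i (D j x) = 0
  lower : ∀ i j, j < i → ∀ x, Q i (D j x) = D j x
  upper : ∀ i j, i ≤ j → ∀ x, Q i (D j x) = 0
  span : ∀ x, x ∈ closure (Submodule.span 𝕜 {y | ∃ i, y = D i x} : Set X)

variable (𝕜 X)

/-- a bounded system which covers `X` -/
def HasSk : Prop := ∃ (T : Type v) (_ : Preorder T) (P : T → X →L[𝕜] X) (r : ℝ), Sys P r ∧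
  ∀ x, ∃ s, P s x = x

/-- decomposition into separable pieces along a well-order whose proper initial segments have
less than `κ` elements -/
def HasDec (κ : Cardinal.{u}) : Prop := ∃ (I : Type u) (_ : LinearOrder I) (_ : WellFoundedLT I)
  (D Q : I → X →L[𝕜] X), Dec D Q ∧ (∀ i, TopologicalSpace.IsSeparable (range (D i))) ∧ ∀ i : I, #(Iio i) < κ

end Defs

/-! ## Statements of the pieces -/

/-- UB: a skeleton has a uniformly bounded cofinal sub-skeleton -/
def S_UB : Prop := ∀ (𝕜 : Type) [RCLike 𝕜] (X : Type u) [NormedAddCommGroup X] [NormedSpace 𝕜 X]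
  [CompleteSpace X] (Γ : Type v) [PartialOrder Γ] (P : Γ → X →L[𝕜] X), IsSkeleton P →
  HasSk.{u, v} 𝕜 X

/-- FS: re-indexing by the finite subsets of a dense set -/
def S_FS : Prop := ∀ (𝕜 : Type) [RCLike 𝕜] (X : Type u) [NormedAddCommGroup X] [NormedSpace 𝕜 X],
  HasSk.{u, v} 𝕜 X → ∀ D : Set X, Dense D →
  ∃ (P : Finset D → X →L[𝕜] X) (r : ℝ), FinSk P r

/-- LM: existence of the limit operators -/
def S_LM : Prop := ∀ (𝕜 : Type) [RCLike 𝕜] (X : Type u) [NormedAddCommGroup X] [NormedSpace 𝕜 X]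
  [CompleteSpace X] (E : Type u) (P : Finset E → X →L[𝕜] X) (r : ℝ), FinSk P r →
  ∃ S : Set E → X →L[𝕜] X, Lim P S

/-- AL: algebra of the limit operators -/
def S_AL : Prop := ∀ (𝕜 : Type) [RCLike 𝕜] (X : Type u) [NormedAddCommGroup X] [NormedSpace 𝕜 X]
  [CompleteSpace X] (E : Type u) (P : Finset E → X →L[𝕜] X) (r : ℝ) (S : Set E → X →L[𝕜] X),
  FinSk P r → Lim P S → Alg S r

/-- CL: closing off a countable set -/
def S_CL : Prop := ∀ (𝕜 : Type) [RCLike 𝕜] (X : Type u) [NormedAddCommGroup X] [NormedSpace 𝕜 X]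
  [CompleteSpace X] (E : Type u) (r : ℝ) (S : Set E → X →L[𝕜] X), Alg S r →
  ∀ C K : Set E, K.Countable → ∃ K' : Set E, K ⊆ K' ∧ K'.Countable ∧ K' ⊆ K ∪ C ∧
    ∀ x, S C (S K' x) = S (C ∩ K') x

/-- KE: the difference of two limit projections has a system again (hypothesis CL) -/
def S_KE : Prop := ∀ (𝕜 : Type) [RCLike 𝕜] (X : Type u) [NormedAddCommGroup X] [NormedSpace 𝕜 X]
  [CompleteSpace X] (E : Type u) (r : ℝ) (S : Set E → X →L[𝕜] X), Alg S r →
  ∀ C C' : Set E, C ⊆ C' → HasSk.{u, u} 𝕜 (Fix (S C' - S C))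

/-- DE: density of the difference -/
def S_DE : Prop := ∀ (𝕜 : Type) [RCLike 𝕜] (X : Type u) [NormedAddCommGroup X] [NormedSpace 𝕜 X]
  [CompleteSpace X] (E : Type u) (r : ℝ) (S : Set E → X →L[𝕜] X), Alg S r →
  ∀ (C C' : Set E) (μ : Cardinal.{u}), C ⊆ C' → ℵ₀ ≤ μ → #C' ≤ μ →
    ∃ D : Set (Fix (S C' - S C)), Dense D ∧ #D ≤ μ

/-- PR: the projectional resolution along a well-order of `E` -/
def S_PR : Prop := ∀ (𝕜 : Type) [RCLike 𝕜] (X : Type u) [NormedAddCommGroup X] [NormedSpace 𝕜 X]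
  [CompleteSpace X] (E : Type u) [LinearOrder E] [WellFoundedLT E] (r : ℝ)
  (S : Set E → X →L[𝕜] X), Alg S r →
  Dec (fun e => S (Iic e) - S (Iio e)) (fun e => S (Iio e))

/-- CO: refinement of a decomposition -/
def S_CO : Prop := ∀ (𝕜 : Type) [RCLike 𝕜] (X : Type u) [NormedAddCommGroup X] [NormedSpace 𝕜 X]
  (J : Type u) [LinearOrder J] (D Q : J → X →L[𝕜] X), Dec D Q →
  ∀ (I : J → Type u) [∀ j, LinearOrder (I j)]
    (D' Q' : ∀ j, I j → Fix (D j) →L[𝕜] Fix (D j)),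
    (∀ j, Dec (D' j) (Q' j)) → (∀ j i, TopologicalSpace.IsSeparable (range (D' j i))) →
    ∃ D'' Q'' : (Σₗ j, I j) → X →L[𝕜] X, Dec D'' Q'' ∧ ∀ k, TopologicalSpace.IsSeparable (range (D'' k))

/-- O1: well-ordering a set of cardinality at most `κ` -/
def S_O1 : Prop := ∀ (κ : Cardinal.{u}), ℵ₀ ≤ κ → ∀ E : Type u, #E ≤ κ →
  ∃ (_ : LinearOrder E) (_ : WellFoundedLT E), ∀ e : E, #(Iio e) < κ

/-- O2: size of a lexicographic sum -/
def S_O2 : Prop := ∀ (κ : Cardinal.{u}), ℵ₀ < κ →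
  ∀ (J : Type u) [LinearOrder J] [WellFoundedLT J], (∀ j : J, #(Iio j) < κ) →
  ∀ (I : J → Type u) [∀ j, LinearOrder (I j)] [∀ j, WellFoundedLT (I j)],
    (∀ (j : J) (i : I j), #(Iio i) < max ℵ₀ #(Iic j)) →
    WellFoundedLT (Σₗ j, I j) ∧ ∀ k : Σₗ j, I j, #(Iio k) < κ

/-- SP: from the decomposition to the separable projectional resolution -/
def S_SP : Prop := ∀ (𝕜 : Type) [RCLike 𝕜] (X : Type u) [NormedAddCommGroup X] [NormedSpace 𝕜 X]
  (κ : Cardinal.{u}), ℵ₀ ≤ κ → HasDec 𝕜 X κ → ∃ Q : Ordinal.{u} → X →L[𝕜] X, IsSPRI κ Q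

/-- MK: Markushevich's theorem for separable spaces -/
def S_MK : Prop := ∀ (𝕜 : Type) [RCLike 𝕜] (X : Type u) [NormedAddCommGroup X] [NormedSpace 𝕜 X]
  [CompleteSpace X] [TopologicalSpace.SeparableSpace X],
  ∃ (I : Type u) (e : I → X) (f : I → X →L[𝕜] 𝕜), IsMBasis e f

/-- GL: gluing Markushevich bases along a separable resolution (hypothesis MK) -/
def S_GL : Prop := ∀ (𝕜 : Type) [RCLike 𝕜] (X : Type u) [NormedAddCommGroup X] [NormedSpace 𝕜 X]
  [CompleteSpace X] (κ : Cardinal.{u}) (Q : Ordinal.{u} → X →L[𝕜] X), ℵ₀ ≤ κ → IsSPRI κ Q →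
  ∃ (I : Type u) (e : I → X) (f : I → X →L[𝕜] 𝕜), IsMBasis e f ∧
    ∀ α ≤ κ.ord, ∀ i, Q α (e i) = e i ∨ Q α (e i) = 0

/-- ST: transfinite induction on the density (assembly) -/
def S_ST : Prop := ∀ (𝕜 : Type) [RCLike 𝕜] (X : Type u) [NormedAddCommGroup X] [NormedSpace 𝕜 X]
  [CompleteSpace X] (κ : Cardinal.{u}), ℵ₀ ≤ κ → HasSk.{u, v} 𝕜 X →
  (∃ D : Set X, Dense D ∧ #D ≤ κ) → HasDec 𝕜 X κ

/-- RES: the full answer -/
def S_RES : Prop := ∀ (𝕜 : Type) [RCLike 𝕜] (X : Type u) [NormedAddCommGroup X] [NormedSpace 𝕜 X]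
  [CompleteSpace X], ¬ TopologicalSpace.SeparableSpace X →
  ∀ (Γ : Type v) [PartialOrder Γ] (P : Γ → X →L[𝕜] X), IsSkeleton P →
  ∃ (I : Type u) (e : I → X) (f : I → X →L[𝕜] 𝕜) (Q : Ordinal.{u} → X →L[𝕜] X),
    IsMBasis e f ∧ IsSPRI (dens X) Q ∧ ∀ α ≤ (dens X).ord, Q α '' range e ⊆ range e ∪ {0}

end MB289
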