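import Pool.Agent.R289.MB.Defs

open Set Filter Topology Cardinal

noncomputable section

namespace MB289

universe u v

namespace FSx

/-- monotone choice of indices for finite sets -/
lemma exF {E : Type u} {T : Type v} [Preorder T] (hne : Nonempty T)
    (hdir : ∀ s t : T, ∃ w, s ≤ w ∧ t ≤ w) (sd : E → T) :
    ∃ F : Finset E → T, (∀ A B : Finset E, A ⊆ B → F A ≤ F B) ∧
      ∀ (A : Finset E), ∀ d ∈ A, sd d ≤ F A := by
  classical
  have : IsDirectedOrder T := ⟨fun a b => hdir a b⟩
  let H : ∀ A : Finset E, (∀ B : Finset E, B ⊂ A → T) → T := fun A ih =>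
    Classical.choose (Finset.exists_le
      ((A.ssubsets.attach.image (fun B => ih B.1 (Finset.mem_ssubsets.1 B.2))) ∪ A.image sd))
  have hH : ∀ (A : Finset E) (ih : ∀ B : Finset E, B ⊂ A → T),
      (∀ B (hB : B ⊂ A), ih B hB ≤ H A ih) ∧ ∀ d ∈ A, sd d ≤ H A ih := by
    intro A ih
    have h1 := Classical.choose_spec (Finset.exists_le
      ((A.ssubsets.attach.image (fun B => ih B.1 (Finset.mem_ssubsets.1 B.2))) ∪ A.image sd))
    refine ⟨fun B hB => h1 _ (Finset.mem_union_left _ ?_),
      fun d hd => h1 _ (Finset.mem_union_right _ (Finset.mem_image_of_mem _ hd))⟩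
    exact Finset.mem_image.2 ⟨⟨B, Finset.mem_ssubsets.2 hB⟩, Finset.mem_attach _ _, rfl⟩
  let F : Finset E → T := fun A => Finset.strongInduction H A
  have hF : ∀ A, F A = H A (fun B _ => F B) := fun A => Finset.strongInduction_eq H A
  refine ⟨F, ?_, ?_⟩
  · intro A B hAB
    rcases eq_or_ne A B with rfl | hne
    · exact le_rfl
    · have hss : A ⊂ B := hAB.ssubset_of_ne hne
      rw [hF B]
      exact (hH B (fun C _ => F C)).1 A hss
  · intro A d hd
    rw [hF A]
    exact (hH A (fun C _ => F C)).2 d hd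

end FSx

open FSx in
theorem t_FS : S_FS.{u, v} := by
  classical
  intro 𝕜 _ X _ _ hsk D hD
  obtain ⟨T, _, P, r, hP, hcov⟩ := hsk
  choose s hs using hcov
  obtain ⟨F, hF, hFs⟩ := exF ⟨s 0⟩ hP.dir (fun d : D => s d)
  have hFd : ∀ (A : Finset D), ∀ d ∈ A, P (F A) (d : X) = d := by
    intro A d hd
    have h1 := (hP.comp (s d) (F A) (hFs A d hd) d).2
    rwa [hs] at h1
  let P' : Finset D → X →L[𝕜] X := fun A => if A = ∅ then 0 else P (F A)
  have hP0 : P' ∅ = 0 := if_pos rfl
  have hP1 : ∀ A : Finset D, A ≠ ∅ → P' A = P (F A) := fun A hA => if_neg hA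
  refine ⟨P', max r 0, ⟨?_, ?_, ?_, ?_, ?_⟩, hP0, ?_⟩
  · exact fun A B => ⟨A ∪ B, Finset.subset_union_left, Finset.subset_union_right⟩
  · intro A x
    by_cases hA : A = ∅
    · rw [hA, hP0]
      simp only [ContinuousLinearMap.zero_apply, norm_zero]
      exact mul_nonneg (le_max_right _ _) (norm_nonneg _)
    · rw [hP1 A hA]
      exact (hP.bound (F A) x).trans
        (mul_le_mul_of_nonneg_right (le_max_left _ _) (norm_nonneg _))
  · intro A B hAB x
    by_cases hA : A = ∅
    · rw [hA, hP0]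
      simp
    · have hB : B ≠ ∅ := by
        rintro rfl
        exact hA (Finset.subset_empty.1 hAB)
      rw [hP1 A hA, hP1 B hB]
      exact hP.comp _ _ (hF A B hAB) x
  · intro A
    by_cases hA : A = ∅
    · rw [hA, hP0]
      have h1 : range (0 : X →L[𝕜] X) ⊆ {0} := by
        rintro _ ⟨x, rfl⟩
        simp
      exact ((Set.finite_singleton (0 : X)).subset h1).isSeparable
    · rw [hP1 A hA]
      exact hP.sep _
  · intro σ hσ x
    have hC := hP.conv (fun n => F (σ n)) (fun m n hmn => hF _ _ (hσ hmn)) x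
    by_cases hN : ∃ N, σ N ≠ ∅
    · obtain ⟨N, hN⟩ := hN
      rw [Metric.cauchySeq_iff] at hC ⊢
      intro ε hε
      obtain ⟨M, hM⟩ := hC ε hε
      refine ⟨max M N, fun m hm n hn => ?_⟩
      have hne : ∀ k, max M N ≤ k → σ k ≠ ∅ := by
        intro k hk h0
        have h2 : σ N ⊆ σ k := hσ ((le_max_right _ _).trans hk)
        rw [h0] at h2
        exact hN (Finset.subset_empty.1 h2)
      rw [hP1 _ (hne m hm), hP1 _ (hne n hn)]
      exact hM m ((le_max_left _ _).trans hm) n ((le_max_left _ _).trans hn)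
    · push Not at hN
      have h1 : (fun n => P' (σ n) x) = fun _ => 0 := by
        funext n
        rw [hN n, hP0]
        simp
      rw [h1]
      exact cauchySeq_const 0
  · intro x
    refine closure_mono ?_ (hD x)
    intro d hd
    refine mem_iUnion.2 ⟨{⟨d, hd⟩}, d, ?_⟩
    rw [hP1 _ (Finset.singleton_ne_empty _)]
    exact hFd {⟨d, hd⟩} ⟨d, hd⟩ (Finset.mem_singleton_self _)

end MB289
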