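import Pool.Agent.R289.MB.Defs

/-!
# Gluing Markushevich bases along a separable projectional resolution
(piece `GL` of project MB, MP_14477d_an)
-/

open Set Filter Topology Cardinal

noncomputable section

namespace MB289

universe u

section

variable {𝕜 : Type} [RCLike 𝕜] {X : Type u} [NormedAddCommGroup X] [NormedSpace 𝕜 X]

/-- the difference of two successive projections -/
def glD (Q : Ordinal.{u} → X →L[𝕜] X) (β : Ordinal.{u}) : X →L[𝕜] X := Q (Order.succ β) - Q β

variable {κ : Cardinal.{u}} {Q : Ordinal.{u} → X →L[𝕜] X}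

theorem glD_apply (β : Ordinal.{u}) (x : X) : glD Q β x = Q (Order.succ β) x - Q β x := rfl

theorem gl_comp (h : IsSPRI κ Q) {α β : Ordinal.{u}} (hα : α ≤ κ.ord) (hβ : β ≤ α) (x : X) :
    Q α (Q β x) = Q β x ∧ Q β (Q α x) = Q β x := by
  rcases lt_or_eq_of_le hα with h1 | rfl
  · exact h.comp α h1 β hβ x
  · rw [h.top]
    exact ⟨rfl, rfl⟩

theorem gl_above (h : IsSPRI κ Q) {α β : Ordinal.{u}} (hβ : β < κ.ord) (hα : α ≤ β) (x : X) :
    Q α (glD Q β x) = 0 := by
  have h1 : Order.succ β ≤ κ.ord := Order.succ_le_of_lt hβ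
  have h2 := (gl_comp h h1 (hα.trans (Order.le_succ β)) x).2
  have h3 := (gl_comp h hβ.le hα x).2
  rw [glD_apply, map_sub, h2, h3, sub_self]

theorem gl_below (h : IsSPRI κ Q) {α β : Ordinal.{u}} (hα : α ≤ κ.ord) (hβ : β < α) (x : X) :
    Q α (glD Q β x) = glD Q β x := by
  have h1 : Order.succ β ≤ α := Order.succ_le_of_lt hβ
  have h2 := (gl_comp h hα h1 x).1
  have h3 := (gl_comp h hα hβ.le x).1
  rw [glD_apply, map_sub, h2, h3]

theorem gl_idem (h : IsSPRI κ Q) {β : Ordinal.{u}} (hβ : β < κ.ord) (x : X) :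
    glD Q β (glD Q β x) = glD Q β x := by
  rw [glD_apply, gl_above h hβ le_rfl, gl_below h (Order.succ_le_of_lt hβ) (Order.lt_succ β),
    sub_zero]

theorem gl_orth (h : IsSPRI κ Q) {β γ : Ordinal.{u}} (hβ : β < κ.ord) (hγ : γ < κ.ord)
    (hne : β ≠ γ) (x : X) : glD Q β (glD Q γ x) = 0 := by
  rcases lt_or_gt_of_ne hne with hlt | hlt
  · rw [glD_apply, gl_above h hγ (Order.succ_le_of_lt hlt), gl_above h hγ hlt.le, sub_self]
  · rw [glD_apply, gl_below h (Order.succ_le_of_lt hβ) (hlt.trans (Order.lt_succ β)),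
      gl_below h hβ.le hlt, sub_self]

theorem mem_Fix {D : X →L[𝕜] X} {x : X} : x ∈ Fix D ↔ D x = x := Iff.rfl

theorem isClosed_Fix (D : X →L[𝕜] X) : IsClosed (Fix D : Set X) := by
  have e : (Fix D : Set X) = {x | D x = x} := rfl
  rw [e]
  exact isClosed_eq D.continuous continuous_id

theorem separable_Fix (D : X →L[𝕜] X) (hs : TopologicalSpace.IsSeparable (range D)) :
    TopologicalSpace.SeparableSpace (Fix D) := by
  have h1 : TopologicalSpace.IsSeparable (Fix D : Set X) :=
    hs.mono (fun x hx => ⟨x, hx⟩)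
  exact h1.separableSpace

end

theorem t_GL (hMK : S_MK.{u}) : S_GL.{u} := by
  intro 𝕜 _ X _ _ _ κ Q hκ hQ
  set B := κ.ord.ToType with hB
  let β : B → Ordinal.{u} := fun b => (Ordinal.ToType.toOrd b : Ordinal.{u})
  have hβ : ∀ b, β b < κ.ord := fun b => (Ordinal.ToType.toOrd b).2
  have hβinj : Function.Injective β := by
    intro a b hab
    exact (Ordinal.ToType.mk.symm).injective (Subtype.ext hab)
  have hβsurj : ∀ γ < κ.ord, ∃ b, β b = γ := by
    intro γ hγ
    refine ⟨Ordinal.ToType.mk ⟨γ, hγ⟩, ?_⟩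
    show ((Ordinal.ToType.mk.symm (Ordinal.ToType.mk ⟨γ, hγ⟩) : Iio κ.ord) : Ordinal.{u}) = γ
    rw [OrderIso.symm_apply_apply]
  have hmk : ∀ b : B, ∃ (I : Type u) (e : I → Fix (glD Q (β b)))
      (f : I → Fix (glD Q (β b)) →L[𝕜] 𝕜), IsMBasis e f := by
    intro b
    have hc : CompleteSpace (Fix (glD Q (β b))) :=
      (isClosed_Fix (glD Q (β b))).completeSpace_coe
    have hs : TopologicalSpace.SeparableSpace (Fix (glD Q (β b))) :=
      separable_Fix _ (hQ.sep (β b) (hβ b))
    exact hMK 𝕜 (Fix (glD Q (β b)))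
  choose I e f hf using hmk
  have hmem : ∀ b x, glD Q (β b) x ∈ Fix (glD Q (β b)) := fun b x => gl_idem hQ (hβ b) x
  refine ⟨Σ b, I b, fun p => (e p.1 p.2 : X), fun p => (f p.1 p.2).comp
    ((glD Q (β p.1)).codRestrict (Fix (glD Q (β p.1))) (hmem p.1)), ?_, ?_⟩
  · constructor
    · rintro ⟨b, i⟩
      have h1 : (glD Q (β b)).codRestrict (Fix (glD Q (β b))) (hmem b) (e b i) = e b i :=
        Subtype.ext (e b i).2
      show f b i ((glD Q (β b)).codRestrict (Fix (glD Q (β b))) (hmem b) (e b i)) = 1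
      rw [h1]
      exact (hf b).one i
    · rintro ⟨b, i⟩ ⟨c, j⟩ hne
      show f b i ((glD Q (β b)).codRestrict (Fix (glD Q (β b))) (hmem b) (e c j)) = 0
      by_cases hbc : b = c
      · subst hbc
        have hij : i ≠ j := by
          intro h
          exact hne (by rw [h])
        have h1 : (glD Q (β b)).codRestrict (Fix (glD Q (β b))) (hmem b) (e b j) = e b j :=
          Subtype.ext (e b j).2
        rw [h1]
        exact (hf b).zero i j hij
      · have h1 : (glD Q (β b)).codRestrict (Fix (glD Q (β b))) (hmem b) (e c j) = 0 := by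
          apply Subtype.ext
          show glD Q (β b) (e c j : X) = 0
          have h2 : glD Q (β c) (e c j : X) = (e c j : X) := (e c j).2
          rw [← h2]
          exact gl_orth hQ (hβ b) (hβ c) (fun h => hbc (hβinj h)) _
        rw [h1, map_zero]
    · -- density
      set M := (Submodule.span 𝕜 (range fun p : Σ b, I b => (e p.1 p.2 : X))).topologicalClosure
        with hM
      have h1 : ∀ γ < κ.ord, ∀ x, glD Q γ x ∈ M := by
        intro γ hγ x
        obtain ⟨b, rfl⟩ := hβsurj γ hγ
        have h2 : (⟨glD Q (β b) x, hmem b x⟩ : Fix (glD Q (β b))) ∈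
            closure (Submodule.span 𝕜 (range (e b)) : Set (Fix (glD Q (β b)))) :=
          (hf b).dense _
        have h3 : ((Fix (glD Q (β b))).subtypeL (⟨glD Q (β b) x, hmem b x⟩) : X) ∈
            closure ((Fix (glD Q (β b))).subtypeL ''
              (Submodule.span 𝕜 (range (e b)) : Set (Fix (glD Q (β b))))) :=
          image_closure_subset_closure_image (Fix (glD Q (β b))).subtypeL.continuous
            (mem_image_of_mem _ h2)
        refine closure_mono ?_ h3
        rintro _ ⟨y, hy, rfl⟩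
        have h4 : (Fix (glD Q (β b))).subtype y ∈
            (Submodule.span 𝕜 (range (e b))).map (Fix (glD Q (β b))).subtype :=
          Submodule.mem_map_of_mem hy
        rw [Submodule.map_span] at h4
        refine Submodule.span_mono ?_ h4
        rintro _ ⟨_, ⟨i, rfl⟩, rfl⟩
        exact ⟨⟨b, i⟩, rfl⟩
      intro x
      have h5 := hQ.span x
      have h6 : Submodule.span 𝕜 {y | ∃ β < κ.ord, y = (Q (Order.succ β) - Q β) x} ≤ M := by
        rw [Submodule.span_le]
        rintro y ⟨γ, hγ, rfl⟩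
        exact h1 γ hγ x
      have h7 : closure (Submodule.span 𝕜 {y | ∃ β < κ.ord, y = (Q (Order.succ β) - Q β) x} :
          Set X) ⊆ M :=
        closure_minimal h6 (Submodule.isClosed_topologicalClosure _)
      exact h7 h5
    · -- separation
      intro x hx
      have h1 : ∀ γ < κ.ord, glD Q γ x = 0 := by
        intro γ hγ
        obtain ⟨b, rfl⟩ := hβsurj γ hγ
        have h2 := (hf b).sep ⟨glD Q (β b) x, hmem b x⟩ (fun i => hx ⟨b, i⟩)
        exact congrArg Subtype.val h2
      have h5 := hQ.span x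
      have h6 : Submodule.span 𝕜 {y | ∃ β < κ.ord, y = (Q (Order.succ β) - Q β) x} = ⊥ := by
        rw [Submodule.span_eq_bot]
        rintro y ⟨γ, hγ, rfl⟩
        exact h1 γ hγ
      rw [h6] at h5
      simpa using h5
  · rintro α hα ⟨b, i⟩
    show Q α (e b i : X) = (e b i : X) ∨ Q α (e b i : X) = 0
    have h2 : glD Q (β b) (e b i : X) = (e b i : X) := (e b i).2
    rw [← h2]
    rcases lt_or_ge (β b) α with h | h
    · left
      exact gl_below hQ hα h _
    · right
      exact gl_above hQ (hβ b) h _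

end MB289
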