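import Pool.Agent.R289.MB.Defs

open Set Filter Topology Cardinal

noncomputable section

namespace MB289

universe u v

section

variable {𝕜 : Type} [RCLike 𝕜] {X : Type u} [NormedAddCommGroup X] [NormedSpace 𝕜 X]
  {E : Type u} {r : ℝ} {S : Set E → X →L[𝕜] X}

/-- convergence along increasing sequences of sets -/
theorem Alg.tendsto_seq (hS : Alg S r) (σ : ℕ → Set E) (hσ : Monotone σ) (x : X) :
    Tendsto (fun n => S (σ n) x) atTop (𝓝 (S (⋃ n, σ n) x)) := by
  rw [Metric.tendsto_atTop]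
  intro ε hε
  obtain ⟨A, hA, hA'⟩ := hS.cont (⋃ n, σ n) x ε hε
  obtain ⟨N, hN⟩ : ∃ N, (A : Set E) ⊆ σ N :=
    Directed.exists_mem_subset_of_finset_subset_biUnion (directed_of_isDirected_le hσ) hA
  refine ⟨N, fun n hn => ?_⟩
  rw [dist_eq_norm]
  exact hA' (σ n) (hN.trans (hσ hn)) (subset_iUnion σ n)

theorem mem_Fix {D : X →L[𝕜] X} {x : X} : x ∈ Fix D ↔ D x = x := Iff.rfl

theorem fix_low (hS : Alg S r) {C C' : Set E} (h : C ⊆ C') {y : X} (hy : y ∈ Fix (S C' - S C)) :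
    S C y = 0 ∧ S C' y = y := by
  rw [mem_Fix, sub_apply] at hy
  have h1 : S C (S C' y - S C y) = S C y := by rw [hy]
  rw [map_sub, (hS.comp C C' h y).1, (hS.comp C C subset_rfl y).1, sub_self] at h1
  refine ⟨h1.symm, ?_⟩
  rw [← h1, sub_zero] at hy
  exact hy

end

theorem t_KE (hCL : S_CL.{u}) : S_KE.{u} := by
  intro 𝕜 _ X _ _ _ E r S hS C C' hC
  let T := {K : Set E // K.Countable ∧ K ⊆ C' ∧ ∀ x, S C (S K x) = S (C ∩ K) x}
  have hmem : ∀ (K : T) (y : Fix (S C' - S C)), S K.1 (y : X) ∈ Fix (S C' - S C) := by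
    intro K y
    obtain ⟨h1, h2⟩ := fix_low hS hC y.2
    rw [mem_Fix, sub_apply, K.2.2.2, (hS.comp K.1 C' K.2.2.1 y).2]
    have h3 := (hS.comp (C ∩ K.1) C inter_subset_left (y : X)).1
    rw [h1, map_zero] at h3
    rw [← h3, sub_zero]
  let R : T → Fix (S C' - S C) →L[𝕜] Fix (S C' - S C) := fun K =>
    ((S K.1).comp (Fix (S C' - S C)).subtypeL).codRestrict (Fix (S C' - S C)) (hmem K)
  have hR : ∀ (K : T) (y : Fix (S C' - S C)), ((R K y : Fix (S C' - S C)) : X) = S K.1 y :=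
    fun K y => rfl
  refine ⟨T, inferInstance, R, r, ⟨?_, ?_, ?_, ?_, ?_⟩, ?_⟩
  · rintro ⟨K1, h1, h1', h1''⟩ ⟨K2, h2, h2', h2''⟩
    obtain ⟨K', a1, a2, a3, a4⟩ := hCL 𝕜 X E r S hS C (K1 ∪ K2) (h1.union h2)
    refine ⟨⟨K', a2, a3.trans (union_subset (union_subset h1' h2') hC), a4⟩, ?_, ?_⟩
    · exact subset_union_left.trans a1
    · exact subset_union_right.trans a1
  · intro K y
    have := hS.bound K.1 (y : X)
    exact this
  · intro K K' hKK y
    have := hS.comp K.1 K'.1 hKK (y : X)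
    exact ⟨Subtype.ext this.1, Subtype.ext this.2⟩
  · intro K
    have h1 := hS.sep K.1 K.2.1
    have h2 := (Topology.IsInducing.subtypeVal (t := (Fix (S C' - S C) : Set X))).isSeparable_preimage h1
    refine h2.mono ?_
    rintro _ ⟨y, rfl⟩
    exact ⟨(y : X), rfl⟩
  · intro σ hσ y
    have h1 := (hS.tendsto_seq (fun n => (σ n).1) (fun a b hab => hσ hab) (y : X)).cauchySeq
    rw [Metric.cauchySeq_iff] at h1 ⊢
    exact h1
  · intro y
    obtain ⟨h1, h2⟩ := fix_low hS hC y.2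
    have hpos : ∀ n : ℕ, (0 : ℝ) < 1 / ((n : ℝ) + 1) := fun n => by positivity
    choose A hA hA' using fun n : ℕ => hS.cont C' (y : X) (1 / ((n : ℝ) + 1)) (hpos n)
    obtain ⟨K', a1, a2, a3, a4⟩ := hCL 𝕜 X E r S hS C (⋃ n, (A n : Set E))
      (countable_iUnion fun n => (A n).countable_toSet)
    have a5 : K' ⊆ C' := a3.trans (union_subset (iUnion_subset hA) hC)
    refine ⟨⟨K', a2, a5, a4⟩, Subtype.ext ?_⟩
    rw [hR]
    show S K' (y : X) = y
    have h3 : ‖S K' (y : X) - S C' y‖ ≤ 0 := by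
      refine le_of_forall_pos_lt_add ?_ |>.trans (le_refl _)
      intro ε hε
      obtain ⟨n, hn⟩ := exists_nat_one_div_lt hε
      rw [zero_add]
      exact (hA' n K' ((subset_iUnion (fun n => (A n : Set E)) n).trans a1) a5).trans hn
    rw [norm_le_zero_iff, sub_eq_zero] at h3
    rw [h3, h2]

end MB289
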