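import Pool.Agent.R289.MB.Defs

/-!
Project MB, part LM: existence of the limit operators (helper209).
-/

open Set Filter Topology Cardinal

noncomputable section

namespace MB289

universe u v

/-- A net on the finite subsets whose increasing sequences are Cauchy is Cauchy. -/
theorem lm_cauchy {ι : Type u} {X : Type v} [PseudoMetricSpace X] (f : Finset ι → X)
    (hf : ∀ σ : ℕ → Finset ι, Monotone σ → CauchySeq fun n => f (σ n)) : CauchySeq f := by
  classical
  refine Metric.cauchySeq_iff'.2 ?_
  intro ε hε
  by_contra hcon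
  push Not at hcon
  choose g hg hgε using hcon
  let a : ℕ → Finset ι := fun n => g^[n] ∅
  have ha : ∀ n, a (n + 1) = g (a n) := fun n => Function.iterate_succ_apply' g n ∅
  have hmono : Monotone a := monotone_nat_of_le_succ fun n => by
    rw [ha]
    exact hg (a n)
  have h1 := Metric.cauchySeq_iff'.1 (hf a hmono) (ε / 2) (by positivity)
  obtain ⟨N, hN⟩ := h1
  have h2 := hN (N + 1) (Nat.le_succ N)
  have h3 := hgε (a N)
  rw [← ha] at h3
  linarith

theorem t_LM : S_LM.{u} := by
  classical
  intro 𝕜 _ X _ _ _ E P r hP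
  have hlim : ∀ (C : Set E) (x : X), ∃ y, Tendsto
      (fun A : Finset C => P (A.map (Function.Embedding.subtype _)) x) atTop (𝓝 y) := by
    intro C x
    refine cauchySeq_tendsto_of_complete (lm_cauchy _ fun σ hσ => ?_)
    exact hP.sys.conv (fun n => (σ n).map (Function.Embedding.subtype _))
      (fun i j hij => Finset.map_subset_map.2 (hσ hij)) x
  choose y hy using hlim
  let S' : ∀ C : Set E, X →ₗ[𝕜] X := fun C => linearMapOfTendsto (y C)
    (fun A : Finset C => ((P (A.map (Function.Embedding.subtype _)) : X →L[𝕜] X) : X →ₗ[𝕜] X))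
    (tendsto_pi_nhds.2 fun x => hy C x)
  have hS' : ∀ C x, S' C x = y C x := fun C x => rfl
  refine ⟨fun C => (S' C).mkContinuous r fun x => ?_, fun C x ε hε => ?_⟩
  · rw [hS']
    exact le_of_tendsto (hy C x).norm (Eventually.of_forall fun A => hP.sys.bound _ x)
  · obtain ⟨A, hA⟩ := Metric.tendsto_atTop.1 (hy C x) ε hε
    refine ⟨A.map (Function.Embedding.subtype _), ?_, fun B hAB hB => ?_⟩
    · intro e he
      obtain ⟨a, -, rfl⟩ := Finset.mem_map.1 (Finset.mem_coe.1 he)
      exact a.2
    · have hBC : (B.subtype (· ∈ C)).map (Function.Embedding.subtype _) = B :=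
        Finset.subtype_map_of_mem fun b hb => hB (Finset.mem_coe.2 hb)
      have h1 : A ≤ B.subtype (· ∈ C) := by
        intro a ha
        rw [Finset.mem_subtype]
        exact hAB (Finset.mem_map.2 ⟨a, ha, rfl⟩)
      have h2 := hA _ h1
      rw [hBC, dist_eq_norm] at h2
      exact h2

end MB289
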