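import Pool.Agent.R289.MB.Defs

/-!
# MK: Markushevich's theorem for separable Banach spaces
-/

open Set Filter Topology Cardinal

noncomputable section

namespace MB289

universe u

namespace MKAux

open Classical

variable {𝕜 : Type} [RCLike 𝕜] {X : Type u} [NormedAddCommGroup X] [NormedSpace 𝕜 X]

/-- biorthogonal finite sets of pairs -/
def Bio (B : Finset (X × (X →L[𝕜] 𝕜))) : Prop :=
  (∀ p ∈ B, p.2 p.1 = 1) ∧ ∀ p ∈ B, ∀ q ∈ B, p ≠ q → p.2 q.1 = 0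

def res (B : Finset (X × (X →L[𝕜] 𝕜))) (x : X) : X := x - ∑ p ∈ B, p.2 x • p.1

def dres (B : Finset (X × (X →L[𝕜] 𝕜))) (g : X →L[𝕜] 𝕜) : X →L[𝕜] 𝕜 :=
  g - ∑ p ∈ B, g p.1 • p.2

theorem bio_res {B : Finset (X × (X →L[𝕜] 𝕜))} (hB : Bio B) (x : X) :
    ∀ q ∈ B, q.2 (res B x) = 0 := by
  intro q hq
  unfold res
  rw [map_sub, map_sum, Finset.sum_eq_single q]
  · rw [map_smul, hB.1 q hq, smul_eq_mul, mul_one, sub_self]
  · intro p hp hpq
    rw [map_smul, hB.2 q hq p hp (Ne.symm hpq), smul_zero]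
  · intro h
    exact absurd hq h

theorem bio_dres {B : Finset (X × (X →L[𝕜] 𝕜))} (hB : Bio B) (g : X →L[𝕜] 𝕜) :
    ∀ q ∈ B, dres B g q.1 = 0 := by
  intro q hq
  unfold dres
  rw [_root_.sub_apply, _root_.sum_apply, Finset.sum_eq_single q]
  · rw [_root_.smul_apply, hB.1 q hq, smul_eq_mul, mul_one, sub_self]
  · intro p hp hpq
    rw [_root_.smul_apply, hB.2 p hp q hq hpq, smul_zero]
  · intro h
    exact absurd hq h

theorem dres_res {B : Finset (X × (X →L[𝕜] 𝕜))} (hB : Bio B) (g : X →L[𝕜] 𝕜) (x : X) :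
    dres B g (res B x) = g (res B x) := by
  have h : dres B g (res B x) = g (res B x) - ∑ p ∈ B, g p.1 • p.2 (res B x) := by
    simp [dres]
  rw [h, Finset.sum_eq_zero, sub_zero]
  intro p hp
  rw [bio_res hB x p hp, smul_zero]

theorem dres_res' {B : Finset (X × (X →L[𝕜] 𝕜))} (hB : Bio B) (g : X →L[𝕜] 𝕜) (x : X) :
    dres B g (res B x) = dres B g x := by
  have h : dres B g (res B x) = dres B g x - ∑ p ∈ B, p.2 x • dres B g p.1 := by
    unfold res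
    rw [map_sub, map_sum]
    simp only [map_smul]
  rw [h, Finset.sum_eq_zero, sub_zero]
  intro p hp
  rw [bio_dres hB g p hp, smul_zero]

theorem bio_insert {B : Finset (X × (X →L[𝕜] 𝕜))} (hB : Bio B) (g : X →L[𝕜] 𝕜) (x : X)
    (hc : dres B g (res B x) ≠ 0) :
    Bio (insert (res B x, (dres B g (res B x))⁻¹ • dres B g) B) := by
  constructor
  · intro p hp
    rcases Finset.mem_insert.1 hp with rfl | hp
    · simp [hc]
    · exact hB.1 p hp
  · intro p hp q hq hpq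
    rcases Finset.mem_insert.1 hp with rfl | hp
    · rcases Finset.mem_insert.1 hq with rfl | hq
      · exact absurd rfl hpq
      · simp [bio_dres hB g q hq]
    · rcases Finset.mem_insert.1 hq with rfl | hq
      · exact bio_res hB x p hp
      · exact hB.2 p hp q hq hpq

theorem mem_span_fst {B B' : Finset (X × (X →L[𝕜] 𝕜))} (hBB : B ⊆ B') (x : X)
    (h : res B x ∈ Submodule.span 𝕜 (Prod.fst '' (B' : Set (X × (X →L[𝕜] 𝕜))))) :
    x ∈ Submodule.span 𝕜 (Prod.fst '' (B' : Set (X × (X →L[𝕜] 𝕜)))) := by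
  have e : x = res B x + ∑ p ∈ B, p.2 x • p.1 := by simp [res]
  rw [e]
  refine Submodule.add_mem _ h (Submodule.sum_mem _ (fun p hp => Submodule.smul_mem _ _ ?_))
  exact Submodule.subset_span ⟨p, hBB hp, rfl⟩

theorem mem_span_snd {B B' : Finset (X × (X →L[𝕜] 𝕜))} (hBB : B ⊆ B') (g : X →L[𝕜] 𝕜)
    (h : dres B g ∈ Submodule.span 𝕜 (Prod.snd '' (B' : Set (X × (X →L[𝕜] 𝕜))))) :
    g ∈ Submodule.span 𝕜 (Prod.snd '' (B' : Set (X × (X →L[𝕜] 𝕜)))) := by
  have e : g = dres B g + ∑ p ∈ B, g p.1 • p.2 := by simp [dres]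
  rw [e]
  refine Submodule.add_mem _ h (Submodule.sum_mem _ (fun p hp => Submodule.smul_mem _ _ ?_))
  exact Submodule.subset_span ⟨p, hBB hp, rfl⟩

theorem ext1 {B : Finset (X × (X →L[𝕜] 𝕜))} (hB : Bio B) (x : X) :
    ∃ B', Bio B' ∧ B ⊆ B' ∧
      x ∈ Submodule.span 𝕜 (Prod.fst '' (B' : Set (X × (X →L[𝕜] 𝕜)))) := by
  by_cases h0 : res B x = 0
  · refine ⟨B, hB, Finset.Subset.refl _, mem_span_fst (Finset.Subset.refl _) x ?_⟩
    rw [h0]
    exact Submodule.zero_mem _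
  · obtain ⟨g, -, hg⟩ := exists_dual_vector 𝕜 (res B x) (norm_ne_zero_iff.2 h0)
    have hc : dres B g (res B x) ≠ 0 := by
      rw [dres_res hB, hg]
      simpa using h0
    refine ⟨_, bio_insert hB g x hc, Finset.subset_insert _ _,
      mem_span_fst (Finset.subset_insert _ _) x ?_⟩
    exact Submodule.subset_span ⟨_, Finset.mem_coe.2 (Finset.mem_insert_self _ _), rfl⟩

theorem ext2 {B : Finset (X × (X →L[𝕜] 𝕜))} (hB : Bio B) (g : X →L[𝕜] 𝕜) :
    ∃ B', Bio B' ∧ B ⊆ B' ∧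
      g ∈ Submodule.span 𝕜 (Prod.snd '' (B' : Set (X × (X →L[𝕜] 𝕜)))) := by
  by_cases h0 : dres B g = 0
  · refine ⟨B, hB, Finset.Subset.refl _, mem_span_snd (Finset.Subset.refl _) g ?_⟩
    rw [h0]
    exact Submodule.zero_mem _
  · obtain ⟨y, hy⟩ : ∃ y, dres B g y ≠ 0 := by
      by_contra hcon
      push Not at hcon
      exact h0 (ContinuousLinearMap.ext hcon)
    have hc : dres B g (res B y) ≠ 0 := by
      rw [dres_res' hB]
      exact hy
    refine ⟨_, bio_insert hB g y hc, Finset.subset_insert _ _,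
      mem_span_snd (Finset.subset_insert _ _) g ?_⟩
    have h1 : (dres B g (res B y))⁻¹ • dres B g ∈ Submodule.span 𝕜 (Prod.snd ''
        ((insert (res B y, (dres B g (res B y))⁻¹ • dres B g) B : Finset (X × (X →L[𝕜] 𝕜))) :
          Set (X × (X →L[𝕜] 𝕜)))) :=
      Submodule.subset_span ⟨_, Finset.mem_coe.2 (Finset.mem_insert_self _ _), rfl⟩
    have h2 := Submodule.smul_mem _ (dres B g (res B y)) h1
    rwa [smul_smul, mul_inv_cancel₀ hc, one_smul] at h2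

theorem ext {B : Finset (X × (X →L[𝕜] 𝕜))} (hB : Bio B) (x : X) (g : X →L[𝕜] 𝕜) :
    ∃ B', Bio B' ∧ B ⊆ B' ∧
      x ∈ Submodule.span 𝕜 (Prod.fst '' (B' : Set (X × (X →L[𝕜] 𝕜)))) ∧
      g ∈ Submodule.span 𝕜 (Prod.snd '' (B' : Set (X × (X →L[𝕜] 𝕜)))) := by
  obtain ⟨B1, h1, h2, h3⟩ := ext1 hB x
  obtain ⟨B2, h4, h5, h6⟩ := ext2 h1 g
  refine ⟨B2, h4, h2.trans h5, ?_, h6⟩
  exact Submodule.span_mono (Set.image_mono (Finset.coe_subset.2 h5)) h3

end MKAux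

open MKAux

theorem t_MK : S_MK.{u} := by
  classical
  intro 𝕜 _ X _ _ _ _
  obtain ⟨x, hx⟩ := TopologicalSpace.exists_dense_seq X
  choose g hg1 hg2 using fun n : ℕ => exists_dual_vector'' 𝕜 (x n)
  have hsep : ∀ y : X, (∀ n, g n y = 0) → y = 0 := by
    intro y hy
    by_contra hne
    have hpos : 0 < ‖y‖ := norm_pos_iff.2 hne
    obtain ⟨n, hn⟩ := hx.exists_dist_lt y (ε := ‖y‖ / 2) (by positivity)
    rw [dist_eq_norm] at hn
    have h1 : ‖x n‖ ≤ ‖y - x n‖ := by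
      have h2 : g n (x n) = - g n (y - x n) := by
        rw [map_sub, hy n]
        ring
      have h3 : ‖g n (x n)‖ = ‖x n‖ := by
        rw [hg2]
        simp
      rw [← h3, h2, norm_neg]
      refine (ContinuousLinearMap.le_opNorm _ _).trans ?_
      calc ‖g n‖ * ‖y - x n‖ ≤ 1 * ‖y - x n‖ :=
            mul_le_mul_of_nonneg_right (hg1 n) (norm_nonneg _)
        _ = ‖y - x n‖ := one_mul _
    have h4 : ‖y‖ ≤ ‖y - x n‖ + ‖x n‖ := by
      have := norm_add_le (y - x n) (x n)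
      rwa [sub_add_cancel] at this
    linarith
  -- the construction
  have hstep : ∀ (n : ℕ) (B : {B : Finset (X × (X →L[𝕜] 𝕜)) // Bio B}),
      ∃ B' : {B : Finset (X × (X →L[𝕜] 𝕜)) // Bio B}, B.1 ⊆ B'.1 ∧
      x n ∈ Submodule.span 𝕜 (Prod.fst '' (B'.1 : Set (X × (X →L[𝕜] 𝕜)))) ∧
      g n ∈ Submodule.span 𝕜 (Prod.snd '' (B'.1 : Set (X × (X →L[𝕜] 𝕜)))) := by
    intro n B
    obtain ⟨B', h1, h2, h3, h4⟩ := ext B.2 (x n) (g n)
    exact ⟨⟨B', h1⟩, h2, h3, h4⟩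
  choose F hF1 hF2 hF3 using hstep
  obtain ⟨B, hB⟩ : ∃ B : ℕ → {B : Finset (X × (X →L[𝕜] 𝕜)) // Bio B},
      ∀ n, B (n + 1) = F n (B n) := by
    have hemp : Bio (∅ : Finset (X × (X →L[𝕜] 𝕜))) :=
      ⟨fun p hp => absurd hp (Finset.notMem_empty _),
        fun p hp => absurd hp (Finset.notMem_empty _)⟩
    exact ⟨fun n => Nat.rec (motive := fun _ => {B : Finset (X × (X →L[𝕜] 𝕜)) // Bio B})
      ⟨∅, hemp⟩ (fun n C => F n C) n, fun _ => rfl⟩
  have hmono : Monotone (fun n => (B n).1) := by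
    refine monotone_nat_of_le_succ (fun n => ?_)
    show (B n).1 ⊆ (B (n + 1)).1
    rw [hB]
    exact hF1 n (B n)
  refine ⟨↥(⋃ n, ((B n).1 : Set (X × (X →L[𝕜] 𝕜)))), fun i => i.1.1, fun i => i.1.2, ?_⟩
  have hin : ∀ i : ↥(⋃ n, ((B n).1 : Set (X × (X →L[𝕜] 𝕜)))), ∃ n, i.1 ∈ (B n).1 := by
    intro i
    obtain ⟨n, hn⟩ := Set.mem_iUnion.1 i.2
    exact ⟨n, Finset.mem_coe.1 hn⟩
  have hin2 : ∀ n, ∀ p ∈ (B n).1, p ∈ ⋃ n, ((B n).1 : Set (X × (X →L[𝕜] 𝕜))) := by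
    intro n p hp
    exact Set.mem_iUnion.2 ⟨n, Finset.mem_coe.2 hp⟩
  refine ⟨?_, ?_, ?_, ?_⟩
  · intro i
    obtain ⟨n, hn⟩ := hin i
    exact (B n).2.1 _ hn
  · intro i j hij
    obtain ⟨n, hn⟩ := hin i
    obtain ⟨m, hm⟩ := hin j
    refine (B (max n m)).2.2 _ (hmono (le_max_left n m) hn) _ (hmono (le_max_right n m) hm) ?_
    intro h
    exact hij (Subtype.ext h)
  · refine hx.mono ?_
    rintro _ ⟨n, rfl⟩
    have h1 := hF2 n (B n)
    rw [← hB] at h1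
    refine Submodule.span_mono ?_ h1
    rintro _ ⟨p, hp, rfl⟩
    exact ⟨⟨p, hin2 _ p (Finset.mem_coe.1 hp)⟩, rfl⟩
  · intro y hy
    refine hsep y (fun n => ?_)
    have h1 := hF3 n (B n)
    rw [← hB] at h1
    have h2 : ∀ f ∈ Submodule.span 𝕜 (Prod.snd '' ((B (n + 1)).1 : Set (X × (X →L[𝕜] 𝕜)))),
        f y = 0 := by
      intro f hf
      induction hf using Submodule.span_induction with
      | mem f hf =>
        obtain ⟨p, hp, rfl⟩ := hf
        exact hy ⟨p, hin2 _ p (Finset.mem_coe.1 hp)⟩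
      | zero => simp
      | add a b _ _ ha hb => simp [ha, hb]
      | smul c a _ ha => simp [ha]
    exact h2 _ h1

end MB289

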