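import Pool.Agent.R289.MB.Defs

/-!
# MB-O1, MB-O2: well-orders and cardinality of a lexicographic sum
-/

universe u

open Cardinal Ordinal Set

namespace MB289

theorem t_O1 : S_O1.{u} := by
  intro κ _ E hE
  obtain ⟨e0⟩ := Cardinal.eq.1 (mk_ord_toType #E).symm
  refine ⟨LinearOrder.lift' e0 e0.injective, ?_⟩
  letI : LinearOrder E := LinearOrder.lift' e0 e0.injective
  have hwf : WellFounded (fun a b : E => a < b) :=
    InvImage.wf e0 (wellFounded_lt (α := (ord #E).ToType))
  refine ⟨⟨hwf⟩, fun e => ?_⟩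
  have h1 : #(Iio (e0 e)) < #((ord #E).ToType) := mk_Iio_lt (e0 e) (by simp)
  rw [mk_ord_toType] at h1
  refine lt_of_le_of_lt ?_ (lt_of_lt_of_le h1 hE)
  refine Cardinal.mk_le_of_injective (f := fun a : Iio e => (⟨e0 a.1, a.2⟩ : Iio (e0 e))) ?_
  intro a b hab
  have : e0 a.1 = e0 b.1 := congrArg Subtype.val hab
  exact Subtype.ext (e0.injective this)

theorem card_le_of_Iio {A : Type u} [LinearOrder A] [WellFoundedLT A] (μ : Cardinal.{u})
    (h : ∀ a : A, #(Iio a) < μ) : #A ≤ μ := by
  have h1 : typeLT A ≤ ord μ := by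
    by_contra hcon
    rw [not_le] at hcon
    obtain ⟨a, ha⟩ := typein_surj (· < ·) hcon
    have h2 : (typein (α := A) (· < ·) a).card = #{y // y < a} := card_typein (r := (· < ·)) a
    rw [ha, card_ord] at h2
    have h3 : #(Iio a) = μ := h2.symm
    exact absurd (h a) (by rw [h3]; exact lt_irrefl _)
  have h3 := Ordinal.card_le_card h1
  rwa [card_ord, card_type] at h3

theorem t_O2 : S_O2.{u} := by
  intro κ hκ J _ _ hJ I _ _ hI
  constructor
  · refine ⟨?_⟩
    have key : ∀ a b : (Σ j, I j),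
        Sigma.Lex (fun a b : J => a < b) (fun j (a b : I j) => a < b) a b →
        PSigma.Lex (fun a b : J => a < b) (fun j (a b : I j) => a < b) ⟨a.1, a.2⟩ ⟨b.1, b.2⟩ := by
      rintro _ _ (⟨p, q, h⟩ | ⟨p, q, h⟩)
      · exact PSigma.Lex.left _ _ h
      · exact PSigma.Lex.right _ h
    have h1 : WellFounded (PSigma.Lex (fun a b : J => a < b) (fun j (a b : I j) => a < b)) :=
      WellFounded.psigma_lex wellFounded_lt (fun j => wellFounded_lt)
    refine Subrelation.wf (r := InvImage (PSigma.Lex (fun a b : J => a < b)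
      (fun j (a b : I j) => a < b)) (fun k : (Σₗ j, I j) => ⟨(ofLex k).1, (ofLex k).2⟩)) ?_
      (InvImage.wf _ h1)
    rintro a b hab
    have hab' : Sigma.Lex (fun a b : J => a < b) (fun j (a b : I j) => a < b)
      (ofLex a) (ofLex b) := hab
    exact key _ _ hab'
  · intro k
    set j := (ofLex k).1 with hj
    set μ := max ℵ₀ #(Iic j) with hμ
    have hIic : #(Iic j) < κ := by
      have : (Iic j) = insert j (Iio j) := by rw [Iio_insert]
      rw [this]
      refine (mk_insert_le).trans_lt ?_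
      exact Cardinal.add_lt_of_lt hκ.le (hJ j) (one_lt_aleph0.trans hκ)
    have hμκ : μ < κ := max_lt hκ hIic
    have hIj : ∀ j' : Iic j, #(I j'.1) ≤ μ := by
      intro j'
      refine (card_le_of_Iio (max ℵ₀ #(Iic j'.1)) (fun a => hI j'.1 a)).trans ?_
      refine max_le_max le_rfl ?_
      exact Cardinal.mk_le_mk_of_subset (Iic_subset_Iic.mpr j'.2)
    have hinj : #(Iio k) ≤ #(Σ j' : Iic j, I j'.1) := by
      have hle : ∀ a : Iio k, (ofLex a.1).1 ≤ j := by
        intro a
        have ha : Sigma.Lex (fun a b : J => a < b) (fun j (a b : I j) => a < b)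
          (ofLex a.1) (ofLex k) := a.2
        rw [Sigma.lex_iff] at ha
        rcases ha with h | ⟨h, -⟩
        · exact h.le
        · exact h.le
      refine Cardinal.mk_le_of_injective
        (f := fun a : Iio k => (⟨⟨(ofLex a.1).1, hle a⟩, (ofLex a.1).2⟩ : Σ j' : Iic j, I j'.1)) ?_
      rintro ⟨a, ha⟩ ⟨b, hb⟩ hab
      apply Subtype.ext
      show a = b
      have h1 : (⟨(ofLex a).1, (ofLex a).2⟩ : Σ j, I j) = ⟨(ofLex b).1, (ofLex b).2⟩ := by
        have h2 := Sigma.mk.inj_iff.mp hab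
        have h3 : (ofLex a).1 = (ofLex b).1 := congrArg Subtype.val h2.1
        exact Sigma.mk.inj_iff.mpr ⟨h3, h2.2⟩
      exact h1
    refine hinj.trans_lt (lt_of_le_of_lt ?_ hμκ)
    rw [mk_sigma]
    calc Cardinal.sum (fun j' : Iic j => #(I j'.1)) ≤ Cardinal.sum (fun _ : Iic j => μ) :=
          Cardinal.sum_le_sum _ _ hIj
      _ = #(Iic j) * μ := Cardinal.sum_const' _ _
      _ ≤ μ * μ := by gcongr; exact le_max_right _ _
      _ = μ := Cardinal.mul_eq_self (le_max_left _ _)

end MB289
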