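import Pool.Agent.R289.MB.Defs

/-!
# MB-PR: the projectional resolution along a well-order
-/

set_option autoImplicit false

open Set Filter Topology Cardinal

noncomputable section

namespace MB289

universe u v

theorem t_PR : S_PR.{u} := by
  intro 𝕜 _ X _ _ _ E _ _ r S hS
  have cA : ∀ A B : Set E, A ⊆ B → ∀ x, S A (S B x) = S A x := fun A B h x => (hS.comp A B h x).1
  have cB : ∀ A B : Set E, A ⊆ B → ∀ x, S B (S A x) = S A x := fun A B h x => (hS.comp A B h x).2
  have i1 : ∀ i : E, Iio i ⊆ Iic i := fun i => Iio_subset_Iic_self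
  have i2 : ∀ i j : E, i < j → Iic i ⊆ Iio j := fun i j h a ha => lt_of_le_of_lt ha h
  have i3 : ∀ i j : E, i < j → Iio i ⊆ Iio j := fun i j h => Iio_subset_Iio h.le
  have i4 : ∀ i j : E, i < j → Iic i ⊆ Iic j := fun i j h => Iic_subset_Iic.2 h.le
  have i5 : ∀ i j : E, i < j → Iio i ⊆ Iic j := fun i j h => (i3 i j h).trans (i1 j)
  refine ⟨?_, ?_, ?_, ?_, ?_⟩
  · intro i x
    simp only [ContinuousLinearMap.sub_apply, map_sub]
    rw [cA _ _ Subset.rfl, cB _ _ (i1 i), cA _ _ (i1 i), cA (Iio i) (Iio i) Subset.rfl]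
    abel
  · intro i j hij x
    simp only [ContinuousLinearMap.sub_apply, map_sub]
    rcases lt_or_gt_of_ne hij with h | h
    · rw [cA _ _ (i4 i j h), cA _ _ (i2 i j h), cA _ _ (i5 i j h), cA _ _ (i3 i j h)]
      abel
    · rw [cB _ _ (i4 j i h), cB _ _ (i5 j i h), cB _ _ (i2 j i h), cB _ _ (i3 j i h)]
      abel
  · intro i j h x
    simp only [ContinuousLinearMap.sub_apply, map_sub]
    rw [cB _ _ (i2 j i h), cB _ _ (i3 j i h)]
  · intro i j h x
    simp only [ContinuousLinearMap.sub_apply, map_sub]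
    have h1 : Iio i ⊆ Iio j := Iio_subset_Iio h
    rw [cA _ _ (h1.trans (i1 j)), cA _ _ h1]
    abel
  · intro x
    set M : Submodule 𝕜 X :=
      (Submodule.span 𝕜 {y | ∃ i, y = (S (Iic i) - S (Iio i)) x}).topologicalClosure with hM
    have hMc : IsClosed (M : Set X) := Submodule.isClosed_topologicalClosure _
    have hgen : ∀ i, (S (Iic i) - S (Iio i)) x ∈ M := fun i =>
      Submodule.le_topologicalClosure _ (Submodule.subset_span ⟨i, rfl⟩)
    have key : ∀ C : Set E, (∀ a ∈ C, Iic a ⊆ C) → (∀ a ∈ C, S (Iic a) x ∈ M) → S C x ∈ M := by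
      intro C hC hC2
      rcases C.eq_empty_or_nonempty with he | ⟨a0, ha0⟩
      · rw [he, hS.empty]
        simp
      · rw [← SetLike.mem_coe, ← hMc.closure_eq, Metric.mem_closure_iff]
        intro ε hε
        obtain ⟨A, hA1, hA2⟩ := hS.cont C x ε hε
        obtain ⟨a, haC, hAa⟩ : ∃ a ∈ C, (A : Set E) ⊆ Iic a := by
          rcases A.eq_empty_or_nonempty with h | h
          · exact ⟨a0, ha0, by simp [h]⟩
          · exact ⟨A.max' h, hA1 (A.max'_mem h), fun b hb => A.le_max' b hb⟩
        refine ⟨S (Iic a) x, hC2 a haC, ?_⟩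
        rw [dist_comm, dist_eq_norm]
        exact hA2 (Iic a) hAa (hC a haC)
    have hIic : ∀ a : E, S (Iio a) x ∈ M → S (Iic a) x ∈ M := by
      intro a ha
      have := M.add_mem ha (hgen a)
      simpa using this
    have hIio : ∀ e : E, S (Iio e) x ∈ M := by
      intro e
      induction e using WellFoundedLT.induction with
      | _ e ih =>
        exact key (Iio e) (fun a ha => i2 a e ha) (fun a ha => hIic a (ih a ha))
    have huniv := key univ (fun a _ => subset_univ _) (fun a _ => hIic a (hIio a))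
    rw [hS.top] at huniv
    exact huniv

end MB289
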