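import Pool.Agent.R289.MB.Defs

/-!
# Project MB, piece SP: from the decomposition to the separable projectional resolution
-/

open Set Filter Topology Cardinal

noncomputable section

namespace MB289

universe u v

namespace SP

variable {𝕜 : Type} [RCLike 𝕜] {X : Type u} [NormedAddCommGroup X] [NormedSpace 𝕜 X]
  {I : Type u} [LinearOrder I] {D Q : I → X →L[𝕜] X}

/-- continuous linear operators which agree on the ranges of the `D j` are equal -/
lemma ext_D (h : Dec D Q) (A B : X →L[𝕜] X) (hAB : ∀ j x, A (D j x) = B (D j x)) : A = B := by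
  ext x
  have hx := h.span x
  have hcl : IsClosed {z | A z = B z} := isClosed_eq A.continuous B.continuous
  have hsub : (Submodule.span 𝕜 {y | ∃ i, y = D i x} : Set X) ⊆ {z | A z = B z} := by
    intro z hz
    have h1 : Submodule.span 𝕜 {y | ∃ i, y = D i x} ≤
        LinearMap.eqLocus (A : X →ₗ[𝕜] X) (B : X →ₗ[𝕜] X) := by
      refine Submodule.span_le.2 ?_
      rintro _ ⟨i, rfl⟩
      exact hAB i x
    exact h1 hz
  exact closure_minimal hsub hcl hx

variable [WellFoundedLT I]

/-- the ordinal of the elements below `i` -/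
def tt (i : I) : Ordinal.{u} := Ordinal.typein (· < · : I → I → Prop) i

lemma tt_lt {i j : I} : tt i < tt j ↔ i < j := Ordinal.typein_lt_typein _

lemma tt_inj {i j : I} (h : tt i = tt j) : i = j := by
  rcases lt_trichotomy i j with h1 | h1 | h1
  · exact absurd h (tt_lt.2 h1).ne
  · exact h1
  · exact absurd h (tt_lt.2 h1).ne'

open Classical in
/-- the resolution -/
def RR (Q : I → X →L[𝕜] X) (α : Ordinal.{u}) : X →L[𝕜] X :=
  if h : ∃ i : I, tt i = α then Q h.choose else ContinuousLinearMap.id 𝕜 X

open Classical in
lemma RR_D (h : Dec D Q) (α : Ordinal.{u}) (j : I) (x : X) :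
    RR Q α (D j x) = if tt j < α then D j x else 0 := by
  unfold RR
  by_cases hα : ∃ i : I, tt i = α
  · rw [dif_pos hα]
    have h1 := hα.choose_spec
    set i := hα.choose with hi
    by_cases h2 : j < i
    · rw [h.lower i j h2 x, if_pos]
      rw [← h1]
      exact tt_lt.2 h2
    · rw [h.upper i j (not_lt.1 h2) x, if_neg]
      rw [← h1, tt_lt]
      exact h2
  · rw [dif_neg hα, if_pos]
    · rfl
    · have h1 : Ordinal.type (· < · : I → I → Prop) ≤ α := by
        by_contra h2
        obtain ⟨i, hi⟩ := Ordinal.typein_surj (· < · : I → I → Prop) (not_le.1 h2)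
        exact hα ⟨i, hi⟩
      exact (Ordinal.typein_lt_type (· < · : I → I → Prop) j).trans_le h1

end SP

open SP

theorem t_SP : S_SP.{u} := by
  classical
  intro 𝕜 _ X _ _ κ hκ ⟨I, _, _, D, Q, hD, hsep, hI⟩
  have hlt : ∀ j : I, tt j < κ.ord := by
    intro j
    rw [Cardinal.lt_ord]
    unfold tt
    rw [Ordinal.card_typein]
    exact hI j
  refine ⟨RR Q, ?_, ?_, ?_, ?_, ?_, ?_⟩
  · intro α _ x
    have h1 : (RR Q α).comp (RR Q α) = RR Q α := by
      refine ext_D hD _ _ fun j y => ?_
      rw [ContinuousLinearMap.comp_apply, RR_D hD]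
      split_ifs with h2
      · rw [RR_D hD, if_pos h2]
      · rw [map_zero]
    exact DFunLike.congr_fun h1 x
  · refine ext_D hD _ _ fun j y => ?_
    rw [RR_D hD, if_neg (by simp)]
    rfl
  · refine ext_D hD _ _ fun j y => ?_
    rw [RR_D hD, if_pos (hlt j)]
    rfl
  · intro α _
    by_cases hα : ∃ i : I, tt i = α
    · obtain ⟨i, rfl⟩ := hα
      have h1 : RR Q (Order.succ (tt i)) - RR Q (tt i) = D i := by
        refine ext_D hD _ _ fun j y => ?_
        rw [_root_.sub_apply, RR_D hD, RR_D hD]
        by_cases hij : j = i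
        · subst hij
          rw [if_pos (Order.lt_succ _), if_neg (lt_irrefl _), sub_zero, hD.idem]
        · rw [hD.orth i j (Ne.symm hij)]
          have h2 : tt j ≠ tt i := fun h => hij (tt_inj h)
          by_cases h3 : tt j < tt i
          · rw [if_pos h3, if_pos (h3.trans (Order.lt_succ _)), sub_self]
          · rw [if_neg h3, if_neg, sub_self]
            rw [Order.lt_succ_iff]
            intro h4
            exact h3 (lt_of_le_of_ne h4 h2)
      rw [h1]
      exact hsep i
    · have h1 : RR Q (Order.succ α) - RR Q α = 0 := by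
        refine ext_D hD _ _ fun j y => ?_
        rw [_root_.sub_apply, RR_D hD, RR_D hD]
        have h2 : tt j ≠ α := fun h => hα ⟨j, h⟩
        by_cases h3 : tt j < α
        · rw [if_pos h3, if_pos (h3.trans (Order.lt_succ _)), sub_self]
          rfl
        · rw [if_neg h3, if_neg, sub_self]
          · rfl
          rw [Order.lt_succ_iff]
          intro h4
          exact h3 (lt_of_le_of_ne h4 h2)
      rw [h1]
      refine (Set.Countable.isSeparable ?_)
      refine (Set.countable_singleton (0 : X)).mono ?_
      rintro _ ⟨y, rfl⟩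
      rfl
  · intro α _ β hβ x
    have h1 : (RR Q α).comp (RR Q β) = RR Q β := by
      refine ext_D hD _ _ fun j y => ?_
      rw [ContinuousLinearMap.comp_apply, RR_D hD]
      split_ifs with h2
      · rw [RR_D hD, if_pos (h2.trans_le hβ)]
      · rw [map_zero]
    have h2 : (RR Q β).comp (RR Q α) = RR Q β := by
      refine ext_D hD _ _ fun j y => ?_
      rw [ContinuousLinearMap.comp_apply, RR_D hD α]
      split_ifs with h2
      · rfl
      · rw [map_zero, RR_D hD, if_neg]
        exact fun h3 => h2 (h3.trans_le hβ)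
    exact ⟨DFunLike.congr_fun h1 x, DFunLike.congr_fun h2 x⟩
  · intro x
    refine closure_mono (Submodule.span_mono ?_) (hD.span x)
    rintro _ ⟨i, rfl⟩
    refine ⟨tt i, hlt i, ?_⟩
    have h1 : RR Q (Order.succ (tt i)) - RR Q (tt i) = D i := by
      refine ext_D hD _ _ fun j y => ?_
      rw [_root_.sub_apply, RR_D hD, RR_D hD]
      by_cases hij : j = i
      · subst hij
        rw [if_pos (Order.lt_succ _), if_neg (lt_irrefl _), sub_zero, hD.idem]
      · rw [hD.orth i j (Ne.symm hij)]
        have h2 : tt j ≠ tt i := fun h => hij (tt_inj h)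
        by_cases h3 : tt j < tt i
        · rw [if_pos h3, if_pos (h3.trans (Order.lt_succ _)), sub_self]
        · rw [if_neg h3, if_neg, sub_self]
          rw [Order.lt_succ_iff]
          intro h4
          exact h3 (lt_of_le_of_ne h4 h2)
    rw [h1]

end MB289
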