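import Pool.Agent.R289.MB.Defs

open Set Filter Topology Cardinal

noncomputable section

namespace MB289

universe u v

theorem isClosed_Fix {𝕜 : Type} [RCLike 𝕜] {X : Type u} [NormedAddCommGroup X] [NormedSpace 𝕜 X]
    (D : X →L[𝕜] X) : IsClosed (Fix D : Set X) := by
  have : (Fix D : Set X) = {x | D x = x} := rfl
  rw [this]
  exact isClosed_eq D.continuous continuous_id

/-- a separable space is its own decomposition -/
theorem hasDec_of_separable {𝕜 : Type} [RCLike 𝕜] {X : Type u} [NormedAddCommGroup X]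
    [NormedSpace 𝕜 X] (κ : Cardinal.{u}) (hκ : ℵ₀ ≤ κ) (h : TopologicalSpace.SeparableSpace X) :
    HasDec 𝕜 X κ := by
  refine ⟨PUnit, inferInstance, inferInstance, fun _ => ContinuousLinearMap.id 𝕜 X, fun _ => 0,
    ⟨?_, ?_, ?_, ?_, ?_⟩, ?_, ?_⟩
  · intro i x; rfl
  · intro i j hij; exact absurd (Subsingleton.elim i j) hij
  · intro i j hij; exact absurd hij (by rw [Subsingleton.elim i j]; exact lt_irrefl _)
  · intro i j _ x; rfl
  · intro x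
    exact subset_closure (Submodule.subset_span ⟨PUnit.unit, rfl⟩)
  · intro i
    exact TopologicalSpace.IsSeparable.of_separableSpace _
  · intro i
    have : Iio i = ∅ := by
      ext j
      simp only [mem_Iio, mem_empty_iff_false, iff_false, not_lt]
      exact le_of_eq (Subsingleton.elim _ _)
    rw [this, Cardinal.mk_emptyCollection]
    exact lt_of_lt_of_le Cardinal.aleph0_pos hκ

theorem step (hKE : S_KE.{u}) (hDE : S_DE.{u}) (hPR : S_PR.{u}) (hCO : S_CO.{u})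
    (hO2 : S_O2.{u}) (κ : Cardinal.{u}) (hκ : ℵ₀ < κ)
    (𝕜 : Type) [RCLike 𝕜]
    (IH : ∀ μ : Cardinal.{u}, μ < κ → ℵ₀ ≤ μ → ∀ (Y : Type u) [NormedAddCommGroup Y]
      [NormedSpace 𝕜 Y] [CompleteSpace Y], HasSk.{u, u} 𝕜 Y → (∃ D : Set Y, Dense D ∧ #D ≤ μ) →
      HasDec 𝕜 Y μ)
    (X : Type u) [NormedAddCommGroup X] [NormedSpace 𝕜 X] [CompleteSpace X]
    (E : Type u) [LinearOrder E] [WellFoundedLT E] (hE : ∀ e : E, #(Iio e) < κ)
    (r : ℝ) (S : Set E → X →L[𝕜] X) (hS : Alg S r) : HasDec 𝕜 X κ := by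
  have hIic : ∀ e : E, #(Iic e) < κ := by
    intro e
    have h1 : (Iic e : Set E) = insert e (Iio e) := by
      rw [Iio_insert]
    rw [h1]
    refine lt_of_le_of_lt (Cardinal.mk_insert_le) ?_
    exact Cardinal.add_lt_of_lt hκ.le (hE e) (lt_of_lt_of_le Cardinal.one_lt_aleph0 hκ.le)
  have hμ : ∀ e : E, max ℵ₀ #(Iic e) < κ := fun e => max_lt hκ (hIic e)
  have key : ∀ e : E, HasDec 𝕜 (Fix (S (Iic e) - S (Iio e))) (max ℵ₀ #(Iic e)) := by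
    intro e
    haveI : CompleteSpace (Fix (S (Iic e) - S (Iio e))) :=
      (isClosed_Fix (S (Iic e) - S (Iio e))).completeSpace_coe
    refine IH _ (hμ e) (le_max_left _ _) _ (hKE 𝕜 X E r S hS (Iio e) (Iic e) Iio_subset_Iic_self) ?_
    exact hDE 𝕜 X E r S hS (Iio e) (Iic e) _ Iio_subset_Iic_self (le_max_left _ _)
      (le_max_right _ _)
  choose I hI1 hI2 D' Q' hD' hsep hcard using key
  obtain ⟨hw, hc⟩ := @hO2 κ hκ E _ _ hE I hI1 hI2 hcard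
  obtain ⟨D'', Q'', h1, h2⟩ := @hCO 𝕜 _ X _ _ E _ (fun e => S (Iic e) - S (Iio e))
    (fun e => S (Iio e)) (hPR 𝕜 X E r S hS) I hI1 D' Q' hD' hsep
  exact ⟨Σₗ j, I j, inferInstance, hw, D'', Q'', h1, h2, hc⟩

theorem t_ST0 (hFS : S_FS.{u, u}) (hLM : S_LM.{u}) (hAL : S_AL.{u})
    (hKE : S_KE.{u}) (hDE : S_DE.{u}) (hPR : S_PR.{u}) (hCO : S_CO.{u})
    (hO1 : S_O1.{u}) (hO2 : S_O2.{u}) : S_ST.{u, u} := by
  intro 𝕜 _
  have main : ∀ κ : Cardinal.{u}, ℵ₀ ≤ κ → ∀ (Y : Type u) [NormedAddCommGroup Y]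
      [NormedSpace 𝕜 Y] [CompleteSpace Y], HasSk.{u, u} 𝕜 Y → (∃ D : Set Y, Dense D ∧ #D ≤ κ) →
      HasDec 𝕜 Y κ := by
    intro κ
    induction κ using WellFoundedLT.induction with
    | ind κ IH =>
      intro hκ Y _ _ _ hsk hD
      obtain ⟨D, hD1, hD2⟩ := hD
      rcases hκ.eq_or_lt with h | h
      · have : D.Countable := by
          rw [← Cardinal.le_aleph0_iff_set_countable, h]
          exact hD2
        exact hasDec_of_separable κ hκ ⟨⟨D, this, hD1⟩⟩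
      · obtain ⟨P, r, hP⟩ := hFS 𝕜 Y hsk D hD1
        obtain ⟨S, hS⟩ := hLM 𝕜 Y D P r hP
        obtain ⟨o, w, ho⟩ := hO1 κ hκ D hD2
        exact step hKE hDE hPR hCO hO2 κ h 𝕜 (fun μ h1 h2 => IH μ h1 h2) Y D ho r S
          (hAL 𝕜 Y D P r S hP hS)
  intro X _ _ _ κ hκ h1 h2
  exact main κ hκ X h1 h2

theorem t_ST (hFS : S_FS.{u, u}) (hFS' : S_FS.{u, v}) (hLM : S_LM.{u}) (hAL : S_AL.{u})
    (hKE : S_KE.{u}) (hDE : S_DE.{u}) (hPR : S_PR.{u}) (hCO : S_CO.{u})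
    (hO1 : S_O1.{u}) (hO2 : S_O2.{u}) : S_ST.{u, v} := by
  intro 𝕜 _ X _ _ _ κ hκ hsk hD
  obtain ⟨D, hD1, hD2⟩ := hD
  rcases hκ.eq_or_lt with h | h
  · have : D.Countable := by
      rw [← Cardinal.le_aleph0_iff_set_countable, h]
      exact hD2
    exact hasDec_of_separable κ hκ ⟨⟨D, this, hD1⟩⟩
  · obtain ⟨P, r, hP⟩ := hFS' 𝕜 X hsk D hD1
    obtain ⟨S, hS⟩ := hLM 𝕜 X D P r hP
    obtain ⟨o, w, ho⟩ := hO1 κ hκ D hD2
    refine step hKE hDE hPR hCO hO2 κ h 𝕜 ?_ X D ho r S (hAL 𝕜 X D P r S hP hS)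
    intro μ _ h2 Y _ _ _ h3 h4
    exact t_ST0 hFS hLM hAL hKE hDE hPR hCO hO1 hO2 𝕜 Y μ h2 h3 h4

theorem dens_spec (Y : Type u) [TopologicalSpace Y] : ∃ D : Set Y, Dense D ∧ #D = dens Y := by
  have : (sInf {c | ∃ D : Set Y, Dense D ∧ #D = c}) ∈ {c | ∃ D : Set Y, Dense D ∧ #D = c} :=
    csInf_mem ⟨#(univ : Set Y), univ, dense_univ, rfl⟩
  exact this

theorem t_RES (hUB : S_UB.{u, v}) (hST : S_ST.{u, v}) (hSP : S_SP.{u}) (hGL : S_GL.{u}) :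
    S_RES.{u, v} := by
  intro 𝕜 _ X _ _ _ hns Γ _ P hP
  obtain ⟨D, hD1, hD2⟩ := dens_spec X
  have hκ : ℵ₀ ≤ dens X := by
    by_contra hcon
    push Not at hcon
    apply hns
    refine ⟨⟨D, ?_, hD1⟩⟩
    rw [← Cardinal.le_aleph0_iff_set_countable, hD2]
    exact hcon.le
  obtain ⟨Q, hQ⟩ := hSP 𝕜 X (dens X) hκ
    (hST 𝕜 X (dens X) hκ (hUB 𝕜 X Γ P hP) ⟨D, hD1, hD2.le⟩)
  obtain ⟨I, e, f, hM, hinv⟩ := hGL 𝕜 X (dens X) Q hκ hQ
  refine ⟨I, e, f, Q, hM, hQ, ?_⟩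
  rintro α hα _ ⟨_, ⟨i, rfl⟩, rfl⟩
  rcases hinv α hα i with h | h
  · left; rw [h]; exact ⟨i, rfl⟩
  · right; exact h

end MB289
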