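import Pool.Agent.R289.MB.Defs

/-!
# UB: a skeleton has a uniformly bounded cofinal sub-skeleton
-/

open Set Filter Topology Cardinal

noncomputable section

namespace MB289

universe u v

namespace UB

variable {𝕜 : Type} [RCLike 𝕜] {X : Type u} [NormedAddCommGroup X] [NormedSpace 𝕜 X]

theorem exists_bound {Γ : Type v} [PartialOrder Γ] {P : Γ → X →L[𝕜] X} (h : IsSkeleton P)
    [Nonempty Γ] : ∃ n : ℕ, ∀ s, ∃ t, (∀ x, ‖P t x‖ ≤ n * ‖x‖) ∧ s ≤ t := by
  by_contra hc
  push Not at hc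
  choose s hs using hc
  choose ub hub using h.directed
  set t : ℕ → Γ := fun n => Nat.rec (s 0) (fun k y => ub y (s (k + 1))) n with ht
  have ht1 : ∀ n, t (n + 1) = ub (t n) (s (n + 1)) := fun n => rfl
  have hmono : Monotone t := monotone_nat_of_le_succ fun n => by
    rw [ht1]
    exact (hub _ _).1
  have hle : ∀ n, s n ≤ t n := by
    intro n
    cases n with
    | zero => exact le_rfl
    | succ n =>
      rw [ht1]
      exact (hub _ _).2
  obtain ⟨w, hw⟩ := h.complete t hmono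
  obtain ⟨m, hm⟩ := exists_nat_ge ‖P w‖
  refine hs m w (fun x => ?_) ((hle m).trans (hw.1 ⟨m, rfl⟩))
  exact ((P w).le_opNorm x).trans (mul_le_mul_of_nonneg_right hm (norm_nonneg x))

end UB

open UB

theorem t_UB : S_UB.{u, v} := by
  intro 𝕜 _ X _ _ _ Γ _ P h
  haveI : Nonempty Γ := ⟨(h.cover 0).choose⟩
  obtain ⟨n, hn⟩ := exists_bound h
  refine ⟨{s : Γ // ∀ x, ‖P s x‖ ≤ n * ‖x‖}, inferInstance, fun s => P s.1, n, ?_, ?_⟩
  · refine ⟨?_, ?_, ?_, ?_, ?_⟩
    · intro s t
      obtain ⟨r, h1, h2⟩ := h.directed s.1 t.1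
      obtain ⟨w, h3, h4⟩ := hn r
      exact ⟨⟨w, h3⟩, h1.trans h4, h2.trans h4⟩
    · intro s x
      exact s.2 x
    · intro s t hst x
      exact h.comp s.1 t.1 hst x
    · intro s
      exact h.sep s.1
    · intro σ hσ x
      have hσ' : Monotone fun k => (σ k).1 := fun a b hab => hσ hab
      obtain ⟨s, hs⟩ := h.complete (fun k => (σ k).1) hσ'
      have hr := h.cont (fun k => (σ k).1) s hσ' hs
      rw [Metric.cauchySeq_iff']
      intro ε hε
      have hn0 : (0 : ℝ) ≤ n := Nat.cast_nonneg n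
      have hmem : P s x ∈ closure (⋃ k, range (P (σ k).1)) := hr ▸ ⟨x, rfl⟩
      obtain ⟨y, hy, hd⟩ := Metric.mem_closure_iff.1 hmem (ε / (2 * (n + 1))) (by positivity)
      obtain ⟨j, z, hz⟩ := mem_iUnion.1 hy
      have key : ∀ k ≥ j, ‖P (σ k).1 x - y‖ ≤ n * (ε / (2 * (n + 1))) := by
        intro k hk
        have e1 : P (σ k).1 y = y := by
          rw [← hz]
          exact (h.comp (σ j).1 (σ k).1 (hσ' hk) z).2
        have e2 : P (σ k).1 (P s x) = P (σ k).1 x :=
          (h.comp (σ k).1 s (hs.1 ⟨k, rfl⟩) x).1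
        calc ‖P (σ k).1 x - y‖ = ‖P (σ k).1 (P s x - y)‖ := by rw [map_sub, e1, e2]
          _ ≤ n * ‖P s x - y‖ := (σ k).2 _
          _ ≤ n * (ε / (2 * (n + 1))) := by
              apply mul_le_mul_of_nonneg_left _ hn0
              rw [← dist_eq_norm]
              exact hd.le
      refine ⟨j, fun k hk => ?_⟩
      rw [dist_eq_norm]
      have h1 := key k hk
      have h2 := key j le_rfl
      have h3 : ‖P (σ k).1 x - P (σ j).1 x‖ ≤ ‖P (σ k).1 x - y‖ + ‖P (σ j).1 x - y‖ := by
        have : P (σ k).1 x - P (σ j).1 x = (P (σ k).1 x - y) - (P (σ j).1 x - y) := by abel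
        rw [this]
        exact norm_sub_le _ _
      have h4 : (n : ℝ) * (ε / (2 * (n + 1))) + n * (ε / (2 * (n + 1))) < ε := by
        have : (n : ℝ) * (ε / (2 * (n + 1))) + n * (ε / (2 * (n + 1))) = ε * (n / (n + 1)) := by
          field_simp
          ring
        rw [this]
        have h5 : (n : ℝ) / (n + 1) < 1 := by
          rw [div_lt_one (by positivity)]
          linarith
        nlinarith
      linarith
  · intro x
    obtain ⟨s, z, hz⟩ := h.cover x
    obtain ⟨r, h1, h2⟩ := hn s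
    refine ⟨⟨r, h1⟩, ?_⟩
    show P r x = x
    rw [← hz]
    exact (h.comp s r h2 z).2

end MB289
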